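import Mathlib

/-!
The sums `S N = ∑ i ≤ N, i (i)_ℓ`.
-/

set_option autoImplicit false

namespace Pool.Agent.Run7.h652.ZC

/-- the cost of an equation of degree `d` -/
def phi (ℓ d : ℕ) : ℕ := d * ℓ ^ d.factorization ℓ

/-- the sum of the costs of one equation of each of the degrees `1, …, N` -/
def S (ℓ N : ℕ) : ℕ := ∑ i ∈ Finset.range N, phi ℓ (i + 1)

theorem phi_mul_self {ℓ : ℕ} (hℓ : ℓ.Prime) {a : ℕ} (ha : 0 < a) :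
    phi ℓ (ℓ * a) = ℓ ^ 2 * phi ℓ a := by
  unfold phi
  rw [Nat.factorization_mul hℓ.ne_zero ha.ne', Finsupp.add_apply, hℓ.factorization_self, pow_add]
  ring

theorem phi_of_not_dvd {ℓ a : ℕ} (h : ¬ ℓ ∣ a) : phi ℓ a = a := by
  unfold phi
  rw [Nat.factorization_eq_zero_of_not_dvd h, pow_zero, mul_one]

theorem S_succ (ℓ N : ℕ) : S ℓ (N + 1) = S ℓ N + phi ℓ (N + 1) := by
  unfold S
  rw [Finset.sum_range_succ]

theorem S_one {ℓ : ℕ} (hℓ : ℓ.Prime) : S ℓ 1 = 1 := by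
  rw [S_succ]
  simp [S, phi]

/-- a block of `ℓ` consecutive numbers -/
theorem S_block {ℓ : ℕ} (hℓ : ℓ.Prime) (a : ℕ) :
    ∀ c : ℕ, c < ℓ → 2 * S ℓ (ℓ * a + c) = 2 * S ℓ (ℓ * a) + c * (2 * (ℓ * a) + c + 1) := by
  intro c
  induction c with
  | zero => intro _; simp
  | succ c ih =>
    intro hc
    have h1 : ¬ ℓ ∣ ℓ * a + c + 1 := by
      intro h2
      have h3 : ℓ ∣ c + 1 := by
        have h4 : ℓ * a + c + 1 = ℓ * a + (c + 1) := by ring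
        rw [h4] at h2
        exact (Nat.dvd_add_right (Dvd.intro a rfl)).1 h2
      exact absurd (Nat.le_of_dvd (Nat.succ_pos c) h3) (by omega)
    rw [← add_assoc, S_succ, mul_add, ih (by omega), phi_of_not_dvd h1]
    ring

theorem S_mul {ℓ : ℕ} (hℓ : ℓ.Prime) (a : ℕ) :
    2 * S ℓ (ℓ * a) = 2 * ℓ ^ 2 * S ℓ a + a ^ 2 * (ℓ * (ℓ - 1)) := by
  obtain ⟨q, rfl⟩ : ∃ q, ℓ = q + 1 := ⟨ℓ - 1, by have := hℓ.pos; omega⟩
  induction a with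
  | zero => simp [S]
  | succ a ih =>
    have h1 : (q + 1) * (a + 1) = (q + 1) * a + q + 1 := by ring
    rw [h1, S_succ, mul_add, S_block hℓ a q (Nat.lt_succ_self q), ih, S_succ, ← h1,
      phi_mul_self hℓ (Nat.succ_pos a)]
    simp only [Nat.add_sub_cancel]
    ring

theorem S_pow {ℓ : ℕ} (hℓ : ℓ.Prime) (a k : ℕ) :
    2 * ℓ * S ℓ (a * ℓ ^ k) = ℓ ^ (2 * k) * (2 * ℓ * S ℓ a + k * (a ^ 2 * (ℓ - 1))) := by
  induction k with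
  | zero => simp
  | succ k ih =>
    have h1 : a * ℓ ^ (k + 1) = ℓ * (a * ℓ ^ k) := by ring
    have h2 := S_mul hℓ (a * ℓ ^ k)
    rw [h1]
    calc 2 * ℓ * S ℓ (ℓ * (a * ℓ ^ k)) = ℓ * (2 * S ℓ (ℓ * (a * ℓ ^ k))) := by ring
      _ = ℓ ^ 2 * (2 * ℓ * S ℓ (a * ℓ ^ k)) + ℓ ^ 2 * ((a * ℓ ^ k) ^ 2 * (ℓ - 1)) := by
        rw [h2]; ring
      _ = _ := by
        rw [ih]
        have h3 : ℓ ^ (2 * (k + 1)) = ℓ ^ (2 * k) * ℓ ^ 2 := by rw [← pow_add]; congr 1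
        have h4 : (a * ℓ ^ k) ^ 2 = a ^ 2 * ℓ ^ (2 * k) := by rw [mul_pow, ← pow_mul, mul_comm k 2]
        rw [h3, h4]
        ring

/-- For large `m` the curves of degree `m` can be joined. -/
theorem exists_degree {ℓ : ℕ} (hℓ : ℓ.Prime) {κ : Type} [Fintype κ] (d : κ → ℕ) (N : ℕ)
    (h : ∑ j, (d j ^ 2 + (d j - 1) ^ 2) < N) :
    ∃ m : ℕ, 0 < m ∧ ∑ j, (S ℓ (d j * m) + S ℓ ((d j - 1) * m)) < N * S ℓ m := by
  set A := ∑ j, (S ℓ (d j) + S ℓ (d j - 1)) with hA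
  set B := ∑ j, (d j ^ 2 + (d j - 1) ^ 2) with hB
  set k := 2 * ℓ * A with hk
  have hℓ2 := hℓ.two_le
  refine ⟨ℓ ^ k, pow_pos hℓ.pos k, ?_⟩
  have h1 : 2 * ℓ * ∑ j, (S ℓ (d j * ℓ ^ k) + S ℓ ((d j - 1) * ℓ ^ k))
      = ℓ ^ (2 * k) * (2 * ℓ * A + k * (B * (ℓ - 1))) := by
    rw [Finset.mul_sum]
    have h2 : ∀ j, 2 * ℓ * (S ℓ (d j * ℓ ^ k) + S ℓ ((d j - 1) * ℓ ^ k))
        = ℓ ^ (2 * k) * (2 * ℓ * (S ℓ (d j) + S ℓ (d j - 1))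
          + k * ((d j ^ 2 + (d j - 1) ^ 2) * (ℓ - 1))) := by
      intro j
      rw [mul_add, S_pow hℓ, S_pow hℓ]
      ring
    rw [Finset.sum_congr rfl fun j _ => h2 j, ← Finset.mul_sum, Finset.sum_add_distrib,
      ← Finset.mul_sum, ← Finset.mul_sum, ← Finset.sum_mul]
  have h3 : 2 * ℓ * (N * S ℓ (ℓ ^ k)) = ℓ ^ (2 * k) * (N * (2 * ℓ + k * (ℓ - 1))) := by
    have h4 := S_pow hℓ 1 k
    rw [one_mul, S_one hℓ] at h4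
    calc 2 * ℓ * (N * S ℓ (ℓ ^ k)) = N * (2 * ℓ * S ℓ (ℓ ^ k)) := by ring
      _ = _ := by rw [h4]; ring
  have h5 : 0 < 2 * ℓ := by omega
  refine lt_of_mul_lt_mul_left ?_ h5.le
  rw [h1, h3]
  refine Nat.mul_lt_mul_of_pos_left ?_ (pow_pos hℓ.pos _)
  obtain ⟨q, hq⟩ : ∃ q, ℓ - 1 = q + 1 := ⟨ℓ - 2, by omega⟩
  obtain ⟨c, rfl⟩ : ∃ c, N = B + 1 + c := ⟨N - (B + 1), by omega⟩
  rw [hq]
  have h6 : (B + 1 + c) * (2 * ℓ + k * (q + 1)) = (B + 1 + c) * (2 * ℓ) + k * (B * (q + 1))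
      + (1 + c) * (k * (q + 1)) := by ring
  rw [h6]
  have h7 : 2 * ℓ * A ≤ (1 + c) * (k * (q + 1)) := by
    rw [← hk]
    nlinarith [Nat.zero_le (c * (k * (q + 1))), Nat.zero_le (k * q)]
  have h8 : 0 < (B + 1 + c) * (2 * ℓ) := by positivity
  omega

end Pool.Agent.Run7.h652.ZC
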