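import Mathlib
import Pool.Agent.Run7.h652.ZC.Arith

/-!
Two rational curves of large degree with a common end point.
-/

set_option autoImplicit false

namespace Pool.Agent.Run7.h652.ZC

open MvPolynomial

/-- The theorem of Tsen and Lang at the prime `ℓ` for the field `K`: systems of cost less than the
number of variables have a nontrivial solution over an extension of degree prime to `ℓ`. -/
def Gd (ℓ : ℕ) (K : Type) [Field K] : Prop :=
  ∀ (ι κ : Type) [Fintype ι] [Fintype κ] (w : ι → ℕ) (e : κ → ℕ) (f : κ → MvPolynomial ι K),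
    (∀ i, 0 < w i) → (∀ j, 0 < e j) → (∀ j, IsWeightedHomogeneous w (f j) (e j)) →
    ∑ j, phi ℓ (e j) < ∑ i, phi ℓ (w i) →
    ∃ (L : Type) (_ : Field L) (_ : Algebra K L), FiniteDimensional K L ∧
      ¬ ℓ ∣ Module.finrank K L ∧ ∃ x : ι → L, x ≠ 0 ∧ ∀ j, aeval x (f j) = 0

section deg

variable {ι A : Type} [CommRing A] {m : ℕ} {P Q : ι → Polynomial A}

theorem prod_le (hP : ∀ i, (P i).natDegree ≤ m) (M : Multiset ι) :
    (M.map P).prod.natDegree ≤ Multiset.card M * m := by
  induction M using Multiset.induction_on with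
  | empty => simp
  | cons a M ih =>
    rw [Multiset.map_cons, Multiset.prod_cons, Multiset.card_cons]
    refine Polynomial.natDegree_mul_le.trans ?_
    have := hP a
    rw [add_mul, one_mul]
    omega

theorem prod_sub_le (hP : ∀ i, (P i).natDegree ≤ m) (hQ : ∀ i, (Q i).natDegree ≤ m)
    (hPQ : ∀ i, (P i - Q i).natDegree = 0) (M : Multiset ι) :
    ((M.map P).prod - (M.map Q).prod).natDegree ≤ (Multiset.card M - 1) * m := by
  induction M using Multiset.induction_on with
  | empty => simp
  | cons a M ih =>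
    rw [Multiset.map_cons, Multiset.prod_cons, Multiset.map_cons, Multiset.prod_cons,
      Multiset.card_cons, Nat.add_sub_cancel]
    have h1 : P a * (M.map P).prod - Q a * (M.map Q).prod
        = Q a * ((M.map P).prod - (M.map Q).prod) + (P a - Q a) * (M.map P).prod := by ring
    rw [h1]
    refine (Polynomial.natDegree_add_le _ _).trans (max_le ?_ ?_)
    · rcases Nat.eq_zero_or_pos (Multiset.card M) with h0 | h0
      · rw [Multiset.card_eq_zero] at h0
        subst h0
        simp
      · refine Polynomial.natDegree_mul_le.trans ?_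
        have h2 := hQ a
        obtain ⟨c, hc⟩ : ∃ c, Multiset.card M = c + 1 := ⟨Multiset.card M - 1, by omega⟩
        rw [hc] at ih ⊢
        rw [Nat.add_sub_cancel] at ih
        rw [add_mul, one_mul]
        omega
    · refine Polynomial.natDegree_mul_le.trans ?_
      rw [hPQ, zero_add]
      exact prod_le hP M

theorem prod_toMultiset_map (s : ι →₀ ℕ) (P : ι → Polynomial A) :
    ((Finsupp.toMultiset s).map P).prod = s.prod fun i k => P i ^ k := by
  rw [Finsupp.toMultiset_map, Finsupp.prod_toMultiset, Finsupp.prod_mapDomain_index]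
  · intro b; rw [pow_zero]
  · intro b n n'; rw [pow_add]

variable {K : Type} [Field K] [Algebra K A]

theorem aeval_eq_multiset (P : ι → Polynomial A) (f : MvPolynomial ι K) :
    aeval P f = ∑ s ∈ f.support,
      algebraMap K (Polynomial A) (f.coeff s) * ((Finsupp.toMultiset s).map P).prod := by
  rw [aeval_def, eval₂_eq]
  refine Finset.sum_congr rfl fun s _ => ?_
  rw [prod_toMultiset_map]
  rfl

theorem card_of_mem {d : ℕ} {f : MvPolynomial ι K} (hf : f.IsHomogeneous d) {s : ι →₀ ℕ}
    (hs : s ∈ f.support) : Multiset.card (Finsupp.toMultiset s) = d := by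
  rw [Finsupp.card_toMultiset]
  have h1 := hf (mem_support_iff.1 hs)
  rw [Finsupp.weight_apply] at h1
  simp only [Pi.one_apply, smul_eq_mul, mul_one] at h1
  exact h1

theorem natDegree_algebraMap_mul_le (c : K) (p : Polynomial A) :
    (algebraMap K (Polynomial A) c * p).natDegree ≤ p.natDegree := by
  rw [Polynomial.algebraMap_apply]
  exact Polynomial.natDegree_C_mul_le _ _

theorem aeval_le {d : ℕ} {f : MvPolynomial ι K} (hf : f.IsHomogeneous d)
    (hP : ∀ i, (P i).natDegree ≤ m) : (aeval P f).natDegree ≤ d * m := by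
  rw [aeval_eq_multiset]
  refine Polynomial.natDegree_sum_le_of_forall_le _ _ fun s hs => ?_
  refine (natDegree_algebraMap_mul_le _ _).trans ((prod_le hP _).trans ?_)
  rw [card_of_mem hf hs]

theorem aeval_sub_le {d : ℕ} {f : MvPolynomial ι K} (hf : f.IsHomogeneous d)
    (hP : ∀ i, (P i).natDegree ≤ m) (hQ : ∀ i, (Q i).natDegree ≤ m)
    (hPQ : ∀ i, (P i - Q i).natDegree = 0) :
    (aeval P f - aeval Q f).natDegree ≤ (d - 1) * m := by
  rw [aeval_eq_multiset, aeval_eq_multiset, ← Finset.sum_sub_distrib]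
  refine Polynomial.natDegree_sum_le_of_forall_le _ _ fun s hs => ?_
  rw [← mul_sub]
  refine (natDegree_algebraMap_mul_le _ _).trans ((prod_sub_le hP hQ hPQ _).trans ?_)
  rw [card_of_mem hf hs]

/-- the leading coefficient -/
theorem coeff_top {d : ℕ} {f : MvPolynomial ι K} (hf : f.IsHomogeneous d)
    (hP : ∀ i, (P i).natDegree ≤ m) :
    (aeval P f).coeff (d * m) = aeval (fun i => (P i).coeff m) f := by
  rw [aeval_eq_multiset, Polynomial.finsetSum_coeff, aeval_def, eval₂_eq]
  refine Finset.sum_congr rfl fun s hs => ?_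
  rw [Polynomial.algebraMap_apply, Polynomial.coeff_C_mul]
  congr 1
  have h1 := Polynomial.coeff_multiset_prod_of_natDegree_le ((Finsupp.toMultiset s).map P) m
    (by
      intro p hp
      obtain ⟨i, -, rfl⟩ := Multiset.mem_map.1 hp
      exact hP i)
  rw [Multiset.card_map, card_of_mem hf hs, Multiset.map_map] at h1
  rw [h1, Finsupp.toMultiset_map, Finsupp.prod_toMultiset, Finsupp.prod_mapDomain_index]
  · rfl
  · intro b; rw [pow_zero]
  · intro b n n'; rw [pow_add]

end deg

section iso

variable (L ι : Type) [Field L] (m : ℕ)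

/-- the weights -/
def wt (s : Fin m × ι) : ℕ := s.1.1 + 1

/-- the isobaric polynomials -/
noncomputable def Iso : Subalgebra L (Polynomial (MvPolynomial (Fin m × ι) L)) where
  carrier := {P | ∀ k, IsWeightedHomogeneous (wt ι m) (P.coeff k) k}
  mul_mem' := by
    intro P Q hP hQ k
    rw [Polynomial.coeff_mul]
    refine IsWeightedHomogeneous.sum _ _ _ fun c hc => ?_
    have h1 := (hP c.1).mul (hQ c.2)
    rwa [Finset.HasAntidiagonal.mem_antidiagonal.1 hc] at h1
  add_mem' := by
    intro P Q hP hQ k
    rw [Polynomial.coeff_add]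
    exact (hP k).add (hQ k)
  algebraMap_mem' := by
    intro r k
    rw [Polynomial.algebraMap_apply, Polynomial.coeff_C]
    split_ifs with h
    · subst h
      exact isWeightedHomogeneous_C _ _
    · exact isWeightedHomogeneous_zero _ _ _

variable {L ι m}

/-- the general curve which starts in `x` -/
noncomputable def gen (x : ι → L) (i : ι) : Polynomial (MvPolynomial (Fin m × ι) L) :=
  Polynomial.C (C (x i)) + ∑ b : Fin m, Polynomial.C (X (b, i)) * Polynomial.X ^ (b.1 + 1)

theorem gen_mem (x : ι → L) (i : ι) : gen (m := m) x i ∈ Iso L ι m := by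
  unfold gen
  refine add_mem ?_ (sum_mem fun b _ => ?_)
  · exact (Iso L ι m).algebraMap_mem (x i)
  · intro k
    rw [Polynomial.coeff_C_mul, Polynomial.coeff_X_pow]
    split_ifs with h
    · subst h
      rw [mul_one]
      exact isWeightedHomogeneous_X L (wt ι m) (b, i)
    · rw [mul_zero]
      exact isWeightedHomogeneous_zero _ _ _

theorem aeval_gen_mem (x : ι → L) (f : MvPolynomial ι L) :
    aeval (gen (m := m) x) f ∈ Iso L ι m := by
  induction f using MvPolynomial.induction_on with
  | C a => rw [aeval_C]; exact (Iso L ι m).algebraMap_mem a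
  | add p q hp hq => rw [map_add]; exact add_mem hp hq
  | mul_X p i hp => rw [map_mul, aeval_X]; exact mul_mem hp (gen_mem x i)

theorem natDegree_gen (x : ι → L) (i : ι) : (gen (m := m) x i).natDegree ≤ m := by
  unfold gen
  refine (Polynomial.natDegree_add_le _ _).trans (max_le (by simp) ?_)
  refine Polynomial.natDegree_sum_le_of_forall_le _ _ fun b _ => ?_
  exact (Polynomial.natDegree_C_mul_X_pow_le _ _).trans b.2

theorem natDegree_gen_sub (x y : ι → L) (i : ι) :
    (gen (m := m) x i - gen (m := m) y i).natDegree = 0 := by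
  unfold gen
  rw [add_sub_add_right_eq_sub, ← Polynomial.C_sub]
  exact Polynomial.natDegree_C _

end iso

theorem two_curves {ℓ : ℕ} {L : Type} [Field L] (hG : Gd ℓ L) {ι κ : Type} [Fintype ι]
    [Fintype κ] (d : κ → ℕ) (f : κ → MvPolynomial ι L) (hf : ∀ j, (f j).IsHomogeneous (d j))
    {m : ℕ} (hm : ∑ j, (S ℓ (d j * m) + S ℓ ((d j - 1) * m)) < Fintype.card ι * S ℓ m)
    (x y : ι → L) (hx : ∀ j, aeval x (f j) = 0) (hy : ∀ j, aeval y (f j) = 0) :
    ∃ (L' : Type) (_ : Field L') (_ : Algebra L L'), FiniteDimensional L L' ∧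
      ¬ ℓ ∣ Module.finrank L L' ∧ ∃ z : Fin m → ι → L', z ≠ 0 ∧
      (∀ j, aeval (fun i => Polynomial.C (algebraMap L L' (x i)) +
        ∑ b : Fin m, Polynomial.C (z b i) * Polynomial.X ^ (b.1 + 1)) (f j) = 0) ∧
      ∀ j, aeval (fun i => Polynomial.C (algebraMap L L' (y i)) +
        ∑ b : Fin m, Polynomial.C (z b i) * Polynomial.X ^ (b.1 + 1)) (f j) = 0 := by
  classical
  let κ' : Type := (Σ j : κ, Fin (d j * m)) ⊕ (Σ j : κ, Fin ((d j - 1) * m))
  let e : κ' → ℕ := Sum.elim (fun s => s.2.1 + 1) (fun s => s.2.1 + 1)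
  let g : κ' → MvPolynomial (Fin m × ι) L := Sum.elim
    (fun s => (aeval (gen (m := m) x) (f s.1)).coeff (s.2.1 + 1))
    (fun s => (aeval (gen (m := m) y) (f s.1) - aeval (gen (m := m) x) (f s.1)).coeff (s.2.1 + 1))
  obtain ⟨L', i1, i2, hfin, hdeg, z, hz, hzg⟩ := hG (Fin m × ι) κ' (wt ι m) e g
    (fun s => Nat.succ_pos _) (fun s => by rcases s with s | s <;> exact Nat.succ_pos _)
    (fun s => by
      rcases s with s | s
      · exact aeval_gen_mem x (f s.1) _
      · exact sub_mem (aeval_gen_mem y (f s.1)) (aeval_gen_mem x (f s.1)) _)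
    (by
      have h1 : ∑ s : κ', phi ℓ (e s) = ∑ j, (S ℓ (d j * m) + S ℓ ((d j - 1) * m)) := by
        rw [Fintype.sum_sum_type, Fintype.sum_sigma, Fintype.sum_sigma, Finset.sum_add_distrib]
        congr 1
        · refine Finset.sum_congr rfl fun j _ => ?_
          exact Fin.sum_univ_eq_sum_range (fun k => phi ℓ (k + 1)) (d j * m)
        · refine Finset.sum_congr rfl fun j _ => ?_
          exact Fin.sum_univ_eq_sum_range (fun k => phi ℓ (k + 1)) ((d j - 1) * m)
      have h2 : ∑ s : Fin m × ι, phi ℓ (wt ι m s) = Fintype.card ι * S ℓ m := by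
        rw [Fintype.sum_prod_type]
        have h3 : ∀ b : Fin m, ∑ i : ι, phi ℓ (wt ι m (b, i))
            = Fintype.card ι * phi ℓ (b.1 + 1) := by
          intro b
          have h4 : ∀ i : ι, phi ℓ (wt ι m (b, i)) = phi ℓ (b.1 + 1) := fun i => rfl
          rw [Finset.sum_congr rfl fun i _ => h4 i, Finset.sum_const, Finset.card_univ,
            smul_eq_mul]
        rw [Finset.sum_congr rfl fun b _ => h3 b, ← Finset.mul_sum]
        congr 1
        exact Fin.sum_univ_eq_sum_range (fun k => phi ℓ (k + 1)) m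
      rw [h1, h2]
      exact hm)
  let ev : MvPolynomial (Fin m × ι) L →ₐ[L] L' := aeval z
  let Ev : Polynomial (MvPolynomial (Fin m × ι) L) →ₐ[L] Polynomial L' := Polynomial.mapAlgHom ev
  have hEv : ∀ (u : ι → L), (fun i => Ev (gen (m := m) u i))
      = fun i => Polynomial.C (algebraMap L L' (u i)) +
        ∑ b : Fin m, Polynomial.C (z (b, i)) * Polynomial.X ^ (b.1 + 1) := by
    intro u
    funext i
    show Polynomial.map (ev : MvPolynomial (Fin m × ι) L →+* L') (gen u i) = _
    unfold gen
    rw [Polynomial.map_add, Polynomial.map_C, Polynomial.map_sum]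
    congr 1
    · congr 1
      exact ev.commutes (u i)
    · refine Finset.sum_congr rfl fun b _ => ?_
      rw [Polynomial.map_mul, Polynomial.map_pow, Polynomial.map_X, Polynomial.map_C]
      congr 2
      exact aeval_X z (b, i)
  have hco : ∀ (P : Polynomial (MvPolynomial (Fin m × ι) L)) (k : ℕ),
      (Ev P).coeff k = aeval z (P.coeff k) := by
    intro P k
    exact Polynomial.coeff_map (ev : MvPolynomial (Fin m × ι) L →+* L') k
  have hev0 : ∀ (u : ι → L) (j : κ), aeval u (f j) = 0 →
      ((aeval (gen (m := m) u) (f j)).coeff 0) = 0 := by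
    intro u j hu
    have h1 : (Polynomial.constantCoeff : Polynomial (MvPolynomial (Fin m × ι) L) →+*
        MvPolynomial (Fin m × ι) L) (aeval (gen (m := m) u) (f j)) = C (aeval u (f j)) := by
      rw [aeval_def, ← coe_eval₂Hom, ← RingHom.comp_apply, comp_eval₂Hom]
      have h2 : (fun i => (Polynomial.constantCoeff : Polynomial (MvPolynomial (Fin m × ι) L) →+*
          MvPolynomial (Fin m × ι) L) (gen (m := m) u i)) = fun i => C (u i) := by
        funext i
        unfold gen
        simp
      rw [h2]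
      have h3 : (C : L →+* MvPolynomial (Fin m × ι) L) (aeval u (f j))
          = eval₂Hom (C : L →+* MvPolynomial (Fin m × ι) L) (fun i => C (u i)) (f j) := by
        rw [aeval_def, ← coe_eval₂Hom, ← RingHom.comp_apply, comp_eval₂Hom]
        rfl
      have h4 : (Polynomial.constantCoeff : Polynomial (MvPolynomial (Fin m × ι) L) →+*
          MvPolynomial (Fin m × ι) L).comp
          (algebraMap L (Polynomial (MvPolynomial (Fin m × ι) L))) = C := by
        ext1 a
        rw [RingHom.comp_apply, Polynomial.algebraMap_apply, Polynomial.constantCoeff_apply,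
          Polynomial.coeff_C_zero]
        rfl
      rw [h3, h4]
    rw [hu, map_zero] at h1
    exact h1
  have hX : ∀ j, Ev (aeval (gen (m := m) x) (f j)) = 0 := by
    intro j
    ext k
    rw [hco, Polynomial.coeff_zero]
    rcases Nat.eq_zero_or_pos k with h0 | h0
    · rw [h0, hev0 x j (hx j), map_zero]
    · obtain ⟨c, rfl⟩ : ∃ c, k = c + 1 := ⟨k - 1, by omega⟩
      rcases Nat.lt_or_ge c (d j * m) with h1 | h1
      · exact hzg (Sum.inl ⟨j, ⟨c, h1⟩⟩)
      · rw [Polynomial.coeff_eq_zero_of_natDegree_lt, map_zero]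
        exact (aeval_le (hf j) (natDegree_gen x)).trans_lt (Nat.lt_succ_of_le h1)
  have hY : ∀ j, Ev (aeval (gen (m := m) y) (f j)) = 0 := by
    intro j
    have h2 : Ev (aeval (gen (m := m) y) (f j) - aeval (gen (m := m) x) (f j)) = 0 := by
      ext k
      rw [hco, Polynomial.coeff_zero]
      rcases Nat.eq_zero_or_pos k with h0 | h0
      · rw [h0, Polynomial.coeff_sub, hev0 x j (hx j), hev0 y j (hy j), sub_zero, map_zero]
      · obtain ⟨c, rfl⟩ : ∃ c, k = c + 1 := ⟨k - 1, by omega⟩
        rcases Nat.lt_or_ge c ((d j - 1) * m) with h1 | h1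
        · exact hzg (Sum.inr ⟨j, ⟨c, h1⟩⟩)
        · rw [Polynomial.coeff_eq_zero_of_natDegree_lt, map_zero]
          exact (aeval_sub_le (hf j) (natDegree_gen y) (natDegree_gen x)
            (natDegree_gen_sub y x)).trans_lt (Nat.lt_succ_of_le h1)
    rw [map_sub, hX, sub_zero] at h2
    exact h2
  refine ⟨L', i1, i2, hfin, hdeg, fun b i => z (b, i), ?_, fun j => ?_, fun j => ?_⟩
  · intro h
    apply hz
    funext s
    exact congr_fun (congr_fun h s.1) s.2
  · rw [← hEv x, ← comp_aeval_apply]
    exact hX j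
  · rw [← hEv y, ← comp_aeval_apply]
    exact hY j

end Pool.Agent.Run7.h652.ZC
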