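import Mathlib

/-!
Separating transcendence bases among the generators.
-/

set_option autoImplicit false

open MvPolynomial nonZeroDivisors IntermediateField

namespace Pool.Agent.Run7.h652.ZC

theorem sep_basis {k K ι : Type} [Field k] [Field K] [Algebra k K] [Finite ι] (p : ℕ)
    (hp : p.Prime) [ExpChar k p]
    (H : ∀ s : Finset K, LinearIndepOn k _root_.id (s : Set K) →
      LinearIndepOn k (· ^ p) (s : Set K))
    (a : ι → K) (h0 : ∃ s : Set ι, IsTranscendenceBasis k fun i : s => a i) :
    ∃ s : Set ι, IsTranscendenceBasis k (fun i : s => a i) ∧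
      ∀ i, IsSeparable (adjoin k (a '' s)) (a i) := by
  classical
  let C : Set ι → IntermediateField k K := fun s =>
    (separableClosure (adjoin k (a '' s)) K).restrictScalars k
  let N : Set ι → ℕ := fun s => {i | a i ∈ C s}.ncard
  have hfin : {s : Set ι | IsTranscendenceBasis k fun i : s => a i}.Finite := Set.toFinite _
  obtain ⟨s, hs, hmax⟩ := Set.exists_max_image _ N hfin h0
  refine ⟨s, hs, fun n => ?_⟩
  by_contra hn
  have hns : n ∉ s := fun h => hn (le_restrictScalars_separableClosure _
    (subset_adjoin _ _ ⟨n, h, rfl⟩))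
  obtain ⟨i, hi1, hi2⟩ := exists_isTranscendenceBasis_and_isSeparable_of_linearIndepOn_pow'
    p hp H s n hs hns
  set s' : Set ι := insert n s \ {i} with hs'
  have hmem : ∀ j ∈ insert n s, a j ∈ C s' := by
    intro j hj
    by_cases h : j = i
    · subst h
      exact hi2
    · exact le_restrictScalars_separableClosure _ (subset_adjoin _ _ ⟨j, ⟨hj, h⟩, rfl⟩)
  have hle : C s ≤ C s' := by
    refine (separableClosure_le_separableClosure_iff k K _).2 ?_
    rw [adjoin_le_iff]
    rintro _ ⟨j, hj, rfl⟩
    exact hmem j (Set.mem_insert_of_mem n hj)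
  have h1 : N s < N s' := by
    refine Set.ncard_lt_ncard ?_ (Set.toFinite _)
    refine ⟨fun j hj => hle hj, fun h => ?_⟩
    exact hn (h (show n ∈ {j | a j ∈ C s'} from hmem n (Set.mem_insert n s)))
  exact absurd (hmax s' hi1) (not_le.2 h1)

/-- transcendence bases over a domain and over its field of fractions -/
theorem trb_iff {A k E σ : Type} [CommRing A] [IsDomain A] [Field k] [Field E] [Algebra A k]
    [IsFractionRing A k] [Algebra A E] [Algebra k E] [IsScalarTower A k E] (a : σ → E) :
    IsTranscendenceBasis A a ↔ IsTranscendenceBasis k a := by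
  have hinj : Function.Injective (algebraMap A k) := IsFractionRing.injective A k
  have : Algebra.IsAlgebraic A k := IsLocalization.isAlgebraic k A⁰
  have h1 : ∀ (τ : Type) (b : τ → E), AlgebraicIndependent A b ↔ AlgebraicIndependent k b := by
    intro τ b
    exact ⟨fun h => h.extendScalars k, fun h => h.restrictScalars hinj⟩
  constructor
  · rintro ⟨h2, h3⟩
    exact ⟨(h1 σ a).1 h2, fun s hs => h3 s ((h1 _ _).2 hs)⟩
  · rintro ⟨h2, h3⟩
    exact ⟨(h1 σ a).2 h2, fun s hs => h3 s ((h1 _ _).1 hs)⟩

theorem trb_sub {A R E σ : Type} [CommRing A] [CommRing R] [Field E] [Algebra A R] [Algebra A E]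
    [Algebra R E] [IsScalarTower A R E] (hinj : Function.Injective (algebraMap R E)) (x : σ → R)
    (h : IsTranscendenceBasis A fun i => algebraMap R E (x i)) : IsTranscendenceBasis A x := by
  obtain ⟨h2, h3⟩ := h
  refine ⟨AlgebraicIndependent.of_comp (IsScalarTower.toAlgHom A R E) h2, fun s hs hxs => ?_⟩
  have h4 : AlgebraicIndependent A ((↑) : (algebraMap R E '' s) → E) := by
    have h5 : AlgebraicIndependent A ((IsScalarTower.toAlgHom A R E) ∘ ((↑) : s → R)) :=
      hs.map' (f := IsScalarTower.toAlgHom A R E) hinj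
    have h6 := h5.to_subtype_range
    have h7 : Set.range ((IsScalarTower.toAlgHom A R E) ∘ ((↑) : s → R)) = algebraMap R E '' s := by
      rw [Set.range_comp, Subtype.range_coe]
      rfl
    rw [h7] at h6
    exact h6
  have h6 := h3 _ h4 (by
    rintro _ ⟨i, rfl⟩
    exact ⟨x i, hxs ⟨i, rfl⟩, rfl⟩)
  apply Set.Subset.antisymm hxs
  intro r hr
  have h7 : algebraMap R E r ∈ Set.range fun i => algebraMap R E (x i) := by
    rw [h6]
    exact ⟨r, hr, rfl⟩
  obtain ⟨i, hi⟩ := h7
  exact ⟨i, hinj hi⟩

end Pool.Agent.Run7.h652.ZC
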