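import Mathlib
import Pool.Agent.Q225.TL.Gen
import Pool.Agent.Run7.h652.ZC.Sep

/-!
Generic presentation of a variety as a separable cover, in characteristic `p`.
-/

set_option autoImplicit false
set_option linter.style.haveILetI false

open MvPolynomial nonZeroDivisors

namespace Pool.Agent.Run7.h652.ZC

open Pool.Agent.Q49.TL
open Pool.Agent.Q225.TL (hmg_map hmg_eval)

theorem gen_aux {B R E0 E : Type} [CommRing B] [IsDomain B] [CommRing R] [IsDomain R]
    [Algebra B R] [Field E0] [Field E] [Algebra B E0] [IsFractionRing B E0] [Algebra R E]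
    [IsFractionRing R E] [Algebra B E] [Algebra E0 E] [IsScalarTower B E0 E] [IsScalarTower B R E]
    [FaithfulSMul B R] [Algebra.IsAlgebraic B R] (ι : Type) [Fintype ι] (x : ι → R)
    (hsep : ∀ i, IsSeparable E0 (algebraMap R E (x i))) :
    ∃ (c : R) (Q : B) (G : Polynomial B) (P : ι → Polynomial B), Q ≠ 0 ∧ Polynomial.aeval c G = 0 ∧
      Polynomial.aeval c G.derivative ≠ 0 ∧ (∀ i, Polynomial.aeval c (P i) = algebraMap B R Q * x i) ∧
      ∀ H : Polynomial B, Polynomial.aeval c H = 0 → ∃ a : B, a ≠ 0 ∧ ∃ S : Polynomial B,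
        Polynomial.C a * H = G * S := by
  classical
  have hinj : Function.Injective (algebraMap R E) := IsFractionRing.injective R E
  have hinj0 : Function.Injective (algebraMap B E0) := IsFractionRing.injective B E0
  have hint : ∀ r : R, IsIntegral E0 (algebraMap R E r) := by
    intro r
    have h1 : IsAlgebraic B r := Algebra.IsAlgebraic.isAlgebraic r
    have h2 : IsAlgebraic B (algebraMap R E r) := h1.algebraMap
    exact (h2.extendScalars hinj0).isIntegral
  -- the field generated by the `x i`
  set F := IntermediateField.adjoin E0 (Set.range fun i => algebraMap R E (x i)) with hF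
  have hfd : FiniteDimensional E0 F := IntermediateField.finiteDimensional_adjoin (by
    rintro _ ⟨i, rfl⟩
    exact hint _)
  have hsp : Algebra.IsSeparable E0 F := by
    rw [hF, IntermediateField.isSeparable_adjoin_iff_isSeparable]
    rintro _ ⟨i, rfl⟩
    exact hsep i
  obtain ⟨α, hα⟩ := Field.exists_primitive_element E0 F
  have hr : ∀ i, ∃ r : Polynomial E0, Polynomial.aeval (α : E) r = algebraMap R E (x i) := by
    intro i
    have h1 : (⟨algebraMap R E (x i), IntermediateField.subset_adjoin _ _ ⟨i, rfl⟩⟩ : F) ∈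
        IntermediateField.adjoin E0 {α} := by
      rw [hα]
      trivial
    have h2 : IsIntegral E0 α := Algebra.IsIntegral.isIntegral α
    rw [← IntermediateField.mem_toSubalgebra, IntermediateField.adjoin_simple_toSubalgebra_of_isAlgebraic h2.isAlgebraic,
      Algebra.adjoin_singleton_eq_range_aeval] at h1
    obtain ⟨r, hr⟩ := h1
    refine ⟨r, ?_⟩
    have h3 : algebraMap F E (Polynomial.aeval α r) =
        algebraMap F E ⟨algebraMap R E (x i), IntermediateField.subset_adjoin _ _ ⟨i, rfl⟩⟩ := congrArg (algebraMap F E) hr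
    rw [← Polynomial.aeval_algebraMap_apply] at h3
    exact h3
  choose r hr using hr
  obtain ⟨u, v, hv, huv⟩ := IsFractionRing.div_surjective R (α : E)
  obtain ⟨c, d, hd, hcd⟩ := Algebra.IsAlgebraic.exists_smul_eq_mul B u (nonZeroDivisors.ne_zero hv)
  have hv0 : algebraMap R E v ≠ 0 := fun h => nonZeroDivisors.ne_zero hv (hinj (h.trans (map_zero _).symm))
  have hd0 : algebraMap B E0 d ≠ 0 := fun h => hd (hinj0 (h.trans (map_zero _).symm))
  set θ : E := algebraMap R E c with hθ
  have hθα : θ = algebraMap E0 E (algebraMap B E0 d) * (α : E) := by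
    rw [← huv, ← IsScalarTower.algebraMap_apply, mul_div_assoc', eq_div_iff hv0]
    have h1 := congrArg (algebraMap R E) hcd
    rw [Algebra.smul_def, map_mul, map_mul, ← IsScalarTower.algebraMap_apply] at h1
    rw [h1, mul_comm]
  have hαθ : (α : E) = algebraMap E0 E (algebraMap B E0 d)⁻¹ * θ := by
    rw [hθα, ← mul_assoc, ← map_mul, inv_mul_cancel₀ hd0, map_one, one_mul]
  set p : ι → Polynomial E0 := fun i => (r i).comp (Polynomial.C (algebraMap B E0 d)⁻¹ * Polynomial.X) with hp
  have hpx : ∀ i, Polynomial.aeval θ (p i) = algebraMap R E (x i) := by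
    intro i
    rw [hp]
    simp only
    rw [Polynomial.aeval_comp, ← hr i]
    congr 1
    congr 1
    rw [map_mul, Polynomial.aeval_C, Polynomial.aeval_X, hαθ]
  -- evaluation
  have hev : ∀ (H : Polynomial B), algebraMap R E (Polynomial.aeval c H) =
      Polynomial.aeval θ (H.map (algebraMap B E0)) := by
    intro H
    rw [Polynomial.aeval_map_algebraMap, ← Polynomial.aeval_algebraMap_apply]
  have hsm : ∀ (b : B) (s : Polynomial E0), b • s = Polynomial.C (algebraMap B E0 b) * s := by
    intro b s
    rw [← Polynomial.smul_eq_C_mul, IsScalarTower.algebraMap_smul]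
  have hclear : ∀ s : Polynomial E0, ∃ b : B, b ≠ 0 ∧ ∃ S : Polynomial B,
      S.map (algebraMap B E0) = Polynomial.C (algebraMap B E0 b) * s := by
    intro s
    obtain ⟨b, hb, h⟩ := IsLocalization.integerNormalization_spec B⁰ s
    exact ⟨b, nonZeroDivisors.ne_zero hb, _, h.trans (hsm b s)⟩
  set μ := minpoly E0 θ with hμ
  have hθint : IsIntegral E0 θ := hint c
  have hμsep : μ.Separable := by
    have h1 : IsSeparable E0 (algebraMap F E (algebraMap E0 F (algebraMap B E0 d) * α)) := by
      have h3 := Algebra.IsSeparable.isSeparable E0 (algebraMap E0 F (algebraMap B E0 d) * α)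
      have h4 := minpoly.algHom_eq (IsScalarTower.toAlgHom E0 F E) (algebraMap F E).injective
        (algebraMap E0 F (algebraMap B E0 d) * α)
      unfold IsSeparable at h3 ⊢
      rw [← h4] at h3
      exact h3
    have h2 : algebraMap F E (algebraMap E0 F (algebraMap B E0 d) * α) = θ := by
      rw [hθα, map_mul]
      rfl
    rw [h2] at h1
    exact h1
  obtain ⟨g0, hg0, G, hG⟩ := hclear μ
  have hg0' : algebraMap B E0 g0 ≠ 0 := fun h => hg0 (hinj0 (h.trans (map_zero _).symm))
  choose b hb P0 hP0 using fun i => hclear (p i)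
  refine ⟨c, ∏ i, b i, G, fun i => Polynomial.C (∏ j ∈ Finset.univ.erase i, b j) * P0 i,
    Finset.prod_ne_zero_iff.2 fun i _ => hb i, ?_, ?_, ?_, ?_⟩
  · apply hinj
    rw [hev, hG, map_mul, minpoly.aeval, mul_zero, map_zero]
  · intro h0
    have h1 := congrArg (algebraMap R E) h0
    rw [hev, map_zero, ← Polynomial.derivative_map, hG, Polynomial.derivative_C_mul, map_mul, Polynomial.aeval_C] at h1
    rcases mul_eq_zero.1 h1 with h2 | h2
    · exact hg0' ((algebraMap E0 E).injective (h2.trans (map_zero _).symm))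
    · exact hμsep.aeval_derivative_ne_zero (minpoly.aeval E0 θ) h2
  · intro i
    apply hinj
    rw [hev, Polynomial.map_mul, Polynomial.map_C, hP0, map_mul, map_mul, Polynomial.aeval_C, Polynomial.aeval_C,
      hpx, map_mul, ← Finset.prod_erase_mul (Finset.univ) b (Finset.mem_univ i), map_mul, map_mul, mul_assoc]
    simp only [← IsScalarTower.algebraMap_apply]
  · intro H hH
    have h1 : Polynomial.aeval θ (H.map (algebraMap B E0)) = 0 := by
      rw [← hev, hH, map_zero]
    obtain ⟨s, hs⟩ := minpoly.dvd E0 θ h1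
    obtain ⟨b1, hb1, S, hS⟩ := hclear s
    refine ⟨g0 * b1, mul_ne_zero hg0 hb1, S, ?_⟩
    apply Polynomial.map_injective (algebraMap B E0) hinj0
    rw [Polynomial.map_mul, Polynomial.map_mul, hG, hS, hs, Polynomial.map_C, map_mul, Polynomial.C_mul]
    ring

/-- separability over a larger field -/
theorem sep_up {K₁ E₀ E : Type} [Field K₁] [Field E₀] [Field E] [Algebra K₁ E] [Algebra E₀ E]
    (φ : K₁ →+* E₀) (hφ : (algebraMap E₀ E).comp φ = algebraMap K₁ E) {a : E}
    (h : IsSeparable K₁ a) : IsSeparable E₀ a := by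
  let i : Algebra K₁ E₀ := φ.toAlgebra
  have : IsScalarTower K₁ E₀ E := IsScalarTower.of_algebraMap_eq fun x => by rw [← hφ]; rfl
  exact h.tower_top E₀

theorem gen_p (p : ℕ) [Fact p.Prime] (A : Type) [CommRing A] [IsDomain A] [CharP A p] (ι : Type)
    [Finite ι] (q : Ideal (MvPolynomial ι A)) (hq : q.IsPrime) (hA : ∀ a : A, C a ∈ q → a = 0)
    (Hq : ∀ (τ : Type) [Fintype τ] (c : τ → A) (u : τ → MvPolynomial ι A), c ≠ 0 →
      ∑ i, C (c i) * u i ^ p ∈ q → ∃ b : τ → A, b ≠ 0 ∧ ∑ i, C (b i) * u i ∈ q)
    (κ : Type) [Fintype κ] (f : κ → MvPolynomial ι A) (hf : ∀ j, f j ∈ q) :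
    ∃ (N : ℕ) (Θ a Q : MvPolynomial ι A) (G : Polynomial (MvPolynomial ι A))
      (P : ι → Polynomial (MvPolynomial ι A)) (S : κ → Polynomial (MvPolynomial ι A)),
      (∀ j, (f j).totalDegree ≤ N) ∧ a ∉ q ∧ Q ∉ q ∧ G.eval Θ ∈ q ∧ G.derivative.eval Θ ∉ q ∧
      (∀ i, Q * X i - (P i).eval Θ ∈ q) ∧
      ∀ j, Polynomial.C a * hmg N P (Polynomial.C Q) (f j) = G * S j := by
  classical
  have hp : p.Prime := Fact.out
  haveI := Fintype.ofFinite ι
  haveI := hq
  set R := MvPolynomial ι A ⧸ q with hR
  haveI : IsDomain R := Ideal.Quotient.isDomain q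
  set x : ι → R := fun i => Ideal.Quotient.mk q (X i) with hx
  have hAR : ∀ a : A, algebraMap A R a = Ideal.Quotient.mk q (C a) := fun a => rfl
  have hAinj : Function.Injective (algebraMap A R) := by
    rw [injective_iff_map_eq_zero]
    intro a ha
    apply hA
    rw [hAR] at ha
    exact Ideal.Quotient.eq_zero_iff_mem.1 ha
  haveI : FaithfulSMul A R := (faithfulSMul_iff_algebraMap_injective A R).2 hAinj
  have haev : ∀ g : MvPolynomial ι A, aeval x g = Ideal.Quotient.mk q g := by
    intro g
    have h1 := comp_aeval_apply (Ideal.Quotient.mkₐ A q) (f := (X : ι → MvPolynomial ι A)) g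
    rw [aeval_X_left_apply] at h1
    exact h1.symm
  have htop : Algebra.adjoin A (Set.range x) = ⊤ := by
    rw [Algebra.adjoin_range_eq_range_aeval, AlgHom.range_eq_top]
    intro r
    obtain ⟨g, rfl⟩ := Ideal.Quotient.mk_surjective r
    exact ⟨g, haev g⟩
  haveI halgR : Algebra.IsAlgebraic (Algebra.adjoin A (Set.range x)) R := by
    constructor
    intro r
    have hr : r ∈ Algebra.adjoin A (Set.range x) := by rw [htop]; trivial
    exact isAlgebraic_algebraMap (⟨r, hr⟩ : Algebra.adjoin A (Set.range x))
  -- the fields of fractions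
  set E := FractionRing R with hE
  set k := FractionRing A with hk
  haveI : FaithfulSMul A E := by
    rw [faithfulSMul_iff_algebraMap_injective, IsScalarTower.algebraMap_eq A R E]
    exact (IsFractionRing.injective R E).comp hAinj
  letI : Algebra k E := FractionRing.liftAlgebra A E
  haveI : IsScalarTower A k E := FractionRing.isScalarTower_liftAlgebra A E
  have hinj : Function.Injective (algebraMap R E) := IsFractionRing.injective R E
  haveI : CharP k p := charP_of_injective_algebraMap (IsFractionRing.injective A k) p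
  haveI : ExpChar k p := ExpChar.prime hp
  let a : ι → E := fun i => algebraMap R E (x i)
  have halg : Algebra.IsAlgebraic R E := IsLocalization.isAlgebraic E R⁰
  have h0 : ∃ s : Set ι, IsTranscendenceBasis k fun i : s => a i := by
    obtain ⟨u, hu1, hu2⟩ := exists_isTranscendenceBasis_subset (R := A) (A := R) (Set.range x)
    obtain ⟨s, rfl, hs2⟩ := Set.exists_image_eq_injOn_of_subset_range hu1
    have h1 : IsTranscendenceBasis A fun i : s => x i :=
      hu2.comp_equiv (Equiv.Set.imageOfInjOn x s hs2)
    have h2 : IsTranscendenceBasis A fun i : s => a i := h1.algebraMap_comp (A := E)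
    exact ⟨s, (trb_iff _).1 h2⟩
  have H : ∀ s : Finset E, LinearIndepOn k _root_.id (s : Set E) →
      LinearIndepOn k (· ^ p) (s : Set E) := by
    intro s hs
    rw [linearIndepOn_finset_iff] at hs ⊢
    intro g hg
    by_contra hcon
    push Not at hcon
    obtain ⟨z₀, hz₀, hgz⟩ := hcon
    -- common denominators
    obtain ⟨v, hv⟩ := IsLocalization.exist_integer_multiples_of_finset R⁰ s
    obtain ⟨d, hd⟩ := IsLocalization.exist_integer_multiples A⁰ s g
    have hv' : ∀ z : s, ∃ r : R, algebraMap R E r = algebraMap R E v * (z : E) := by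
      intro z
      obtain ⟨r, hr⟩ := hv z z.2
      exact ⟨r, hr.trans (Algebra.smul_def _ _)⟩
    have hd' : ∀ z : s, ∃ c : A, algebraMap A k c = algebraMap A k d * g z := by
      intro z
      obtain ⟨c, hc⟩ := hd z z.2
      exact ⟨c, hc.trans (Algebra.smul_def _ _)⟩
    choose r hr using hv'
    choose c hc using hd'
    choose u hu using fun z : s => Ideal.Quotient.mk_surjective (r z)
    have hd0 : algebraMap A k d ≠ 0 := by
      rw [Ne, IsFractionRing.to_map_eq_zero_iff]
      exact nonZeroDivisors.coe_ne_zero d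
    have hv0 : algebraMap R E v ≠ 0 := by
      rw [Ne, IsFractionRing.to_map_eq_zero_iff]
      exact nonZeroDivisors.coe_ne_zero v
    have hkE : ∀ c : A, algebraMap k E (algebraMap A k c) = algebraMap R E (algebraMap A R c) := by
      intro c
      rw [← IsScalarTower.algebraMap_apply, ← IsScalarTower.algebraMap_apply]
    obtain ⟨b, hb, hb2⟩ := Hq s c u (by
      intro h
      have h1 := hc ⟨z₀, hz₀⟩
      rw [h, Pi.zero_apply, map_zero] at h1
      exact (mul_ne_zero hd0 hgz) h1.symm) (by
      rw [← Ideal.Quotient.eq_zero_iff_mem]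
      apply hinj
      rw [map_sum, map_sum, map_zero]
      have h1 : ∀ z : s, algebraMap R E (Ideal.Quotient.mk q (C (c z) * u z ^ p))
          = algebraMap k E (algebraMap A k d) * algebraMap R E v ^ p * (g z • (z : E) ^ p) := by
        intro z
        rw [map_mul, map_mul, map_pow, hu, ← hAR, map_pow, hr z, ← hkE, hc z, map_mul, mul_pow,
          Algebra.smul_def]
        ring
      rw [Finset.sum_congr rfl fun z _ => h1 z, ← Finset.mul_sum]
      have h2 : ∑ z : s, g z • (z : E) ^ p = 0 := by
        rw [Finset.sum_coe_sort s fun z => g z • z ^ p]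
        exact hg
      rw [h2, mul_zero])
    have h3 : ∑ z : s, algebraMap k E (algebraMap A k (b z)) * (z : E) = 0 := by
      have h4 := Ideal.Quotient.eq_zero_iff_mem.2 hb2
      have h5 := congrArg (algebraMap R E) h4
      rw [map_sum, map_sum, map_zero] at h5
      have h6 : ∀ z : s, algebraMap R E (Ideal.Quotient.mk q (C (b z) * u z))
          = algebraMap R E v * (algebraMap k E (algebraMap A k (b z)) * (z : E)) := by
        intro z
        rw [map_mul, map_mul, hu, ← hAR, hr z, ← hkE]
        ring
      rw [Finset.sum_congr rfl fun z _ => h6 z, ← Finset.mul_sum] at h5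
      exact (mul_eq_zero.1 h5).resolve_left hv0
    apply hb
    funext z
    let g' : E → k := fun y => if h : y ∈ s then algebraMap A k (b ⟨y, h⟩) else 0
    have h7 : ∀ z : s, g' (z : E) = algebraMap A k (b z) := by
      intro z
      show (if h : (z : E) ∈ s then algebraMap A k (b ⟨z, h⟩) else 0) = _
      rw [dif_pos z.2]
    have h8 := hs g' (by
      rw [← Finset.sum_coe_sort s fun z => g' z • _root_.id z]
      rw [← h3]
      refine Finset.sum_congr rfl fun z _ => ?_
      rw [h7 z, Algebra.smul_def]
      rfl) z z.2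
    rw [h7 z] at h8
    rw [Pi.zero_apply]
    exact (IsFractionRing.to_map_eq_zero_iff (K := k)).1 h8
  obtain ⟨s, hs, hsep⟩ := sep_basis p hp H a h0
  have hsR : IsTranscendenceBasis A fun i : s => x i := trb_sub (E := E) hinj _ ((trb_iff _).2 hs)
  set B := MvPolynomial s A with hB
  letI algBR : Algebra B R := ((aeval (fun i : s => x i) : B →ₐ[A] R) : B →+* R).toAlgebra
  have hBR : ∀ b : B, algebraMap B R b = aeval (fun i : s => x i) b := fun b => rfl
  haveI : FaithfulSMul B R := by
    rw [faithfulSMul_iff_algebraMap_injective]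
    exact hsR.1
  haveI : Algebra.IsAlgebraic B R := by
    constructor
    intro r
    have halg := hsR.isAlgebraic
    obtain ⟨g, hg0, hg⟩ := halg.isAlgebraic r
    let e := hsR.1.aevalEquiv
    refine ⟨g.map (e.symm : Algebra.adjoin A (Set.range fun i : s => x i) →+* B), ?_, ?_⟩
    · rw [Polynomial.map_ne_zero_iff]
      · exact hg0
      · exact e.symm.injective
    · rw [Polynomial.aeval_def, Polynomial.eval₂_map]
      have h1 : (algebraMap B R).comp (e.symm : Algebra.adjoin A (Set.range fun i : s => x i) →+* B) =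
          algebraMap (Algebra.adjoin A (Set.range fun i : s => x i)) R := by
        apply RingHom.ext
        intro z
        have h2 := hsR.1.algebraMap_aevalEquiv (e.symm z)
        exact h2.symm.trans (congrArg _ (e.apply_symm_apply z))
      rw [h1]
      rwa [Polynomial.aeval_def] at hg
  set E0 := FractionRing B with hE0
  haveI : FaithfulSMul B E := by
    rw [faithfulSMul_iff_algebraMap_injective, IsScalarTower.algebraMap_eq B R E]
    exact hinj.comp (FaithfulSMul.algebraMap_injective B R)
  letI : Algebra E0 E := FractionRing.liftAlgebra B E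
  haveI : IsScalarTower B E0 E := FractionRing.isScalarTower_liftAlgebra B E
  have hsep' : ∀ i, IsSeparable E0 (algebraMap R E (x i)) := by
    intro i
    let ρ : E0 →+* E := algebraMap E0 E
    have hBE : ∀ b : B, ρ (algebraMap B E0 b) = algebraMap R E (algebraMap B R b) := by
      intro b
      show algebraMap E0 E (algebraMap B E0 b) = _
      rw [← IsScalarTower.algebraMap_apply, ← IsScalarTower.algebraMap_apply]
    have hAE : ∀ c : A, algebraMap k E (algebraMap A k c) = ρ (algebraMap B E0 (C c)) := by
      intro c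
      rw [hBE, hBR, aeval_C, ← IsScalarTower.algebraMap_apply, ← IsScalarTower.algebraMap_apply]
    have hle : (IntermediateField.adjoin k (a '' s)).toSubfield ≤ ρ.fieldRange := by
      refine IntermediateField.adjoin_le_subfield k (a '' s) ?_ ?_
      · rintro _ ⟨c, rfl⟩
        obtain ⟨n, d, hd, rfl⟩ := IsFractionRing.div_surjective (A := A) c
        rw [map_div₀, hAE, hAE]
        exact div_mem ⟨_, rfl⟩ ⟨_, rfl⟩
      · rintro _ ⟨j, hj, rfl⟩
        refine ⟨algebraMap B E0 (X ⟨j, hj⟩), ?_⟩
        rw [hBE, hBR, aeval_X]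
    let e : E0 ≃+* ρ.fieldRange := RingEquiv.ofBijective ρ.rangeRestrictField
      ⟨fun u v h => ρ.injective (congrArg Subtype.val h), fun ⟨y, x, hx⟩ => ⟨x, Subtype.ext hx⟩⟩
    let φ : IntermediateField.adjoin k (a '' s) →+* E0 :=
      (e.symm : ρ.fieldRange →+* E0).comp (Subfield.inclusion hle)
    refine sep_up φ ?_ (hsep i)
    ext z
    have h1 := e.apply_symm_apply (Subfield.inclusion hle z)
    exact congrArg Subtype.val h1
  obtain ⟨c, Q, G, P, hQ, hG, hG', hP, hdiv⟩ := gen_aux (B := B) (R := R) (E0 := E0) (E := E) ι x hsep'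
  -- the lift to polynomials
  let ψ : B →ₐ[A] MvPolynomial ι A := aeval fun j : s => (X (j : ι) : MvPolynomial ι A)
  have hψ : ∀ b : B, Ideal.Quotient.mk q (ψ b) = algebraMap B R b := by
    intro b
    have h1 := comp_aeval_apply (Ideal.Quotient.mkₐ A q) (f := fun j : s => (X (j : ι) : MvPolynomial ι A)) b
    rw [hBR]
    exact h1
  have hψq : ∀ b : B, ψ b ∈ q → b = 0 := by
    intro b hb
    have h1 := Ideal.Quotient.eq_zero_iff_mem.2 hb
    rw [hψ] at h1
    exact (FaithfulSMul.algebraMap_injective B R) (h1.trans (map_zero _).symm)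
  obtain ⟨Θ, hΘ⟩ := Ideal.Quotient.mk_surjective c
  let Ψ : Polynomial B →ₐ[A] Polynomial (MvPolynomial ι A) := Polynomial.mapAlgHom ψ
  have hΨ : ∀ H : Polynomial B, Ideal.Quotient.mk q ((Ψ H).eval Θ) = Polynomial.aeval c H := by
    intro H
    have h1 : Ψ H = H.map (ψ : B →+* MvPolynomial ι A) := rfl
    rw [h1, Polynomial.eval_map, Polynomial.hom_eval₂, hΘ, Polynomial.aeval_def]
    congr 1
    apply RingHom.ext
    intro b
    exact hψ b
  have hΨd : ∀ H : Polynomial B, (Ψ H).derivative = Ψ H.derivative := by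
    intro H
    exact Polynomial.derivative_map H (ψ : B →+* MvPolynomial ι A)
  have hΨC : ∀ b : B, Ψ (Polynomial.C b) = Polynomial.C (ψ b) := by
    intro b
    exact Polynomial.map_C (ψ : B →+* MvPolynomial ι A)
  set N := Finset.univ.sup fun j => (f j).totalDegree with hN
  have hNj : ∀ j, (f j).totalDegree ≤ N := fun j => Finset.le_sup (f := fun j => (f j).totalDegree) (Finset.mem_univ j)
  haveI : IsScalarTower A B R := IsScalarTower.of_algebraMap_eq fun a => ((aeval (fun i : s => x i) : B →ₐ[A] R).commutes a).symm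
  have hH0 : ∀ j, Polynomial.aeval c (hmg N P (Polynomial.C Q) (f j)) = 0 := by
    intro j
    have h1 := hmg_map ((Polynomial.aeval c : Polynomial B →ₐ[B] R).restrictScalars A) N P (Polynomial.C Q) (f j)
    have h2 : (Polynomial.aeval c : Polynomial B →ₐ[B] R).restrictScalars A (hmg N P (Polynomial.C Q) (f j)) =
      Polynomial.aeval c (hmg N P (Polynomial.C Q) (f j)) := rfl
    rw [← h2, h1]
    have h3 : (fun i => (Polynomial.aeval c : Polynomial B →ₐ[B] R).restrictScalars A (P i)) =
        fun i => algebraMap B R Q * x i := funext fun i => hP i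
    have h4 : (Polynomial.aeval c : Polynomial B →ₐ[B] R).restrictScalars A (Polynomial.C Q) = algebraMap B R Q :=
      Polynomial.aeval_C _ _
    rw [h3, h4, hmg_eval N x _ (f j) (hNj j), haev, Ideal.Quotient.eq_zero_iff_mem.2 (hf j), mul_zero]
  choose a' ha' S hS using fun j => hdiv _ (hH0 j)
  refine ⟨N, Θ, ψ (∏ j, a' j), ψ Q, Ψ G, fun i => Ψ (P i),
    fun j => Ψ (Polynomial.C (∏ i ∈ Finset.univ.erase j, a' i) * S j), hNj, ?_, ?_, ?_, ?_, ?_, ?_⟩
  · intro h
    exact (Finset.prod_ne_zero_iff.2 fun j _ => ha' j) (hψq _ h)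
  · intro h
    exact hQ (hψq _ h)
  · apply Ideal.Quotient.eq_zero_iff_mem.1
    rw [hΨ, hG]
  · intro h
    apply hG'
    rw [← hΨ, ← hΨd]
    exact Ideal.Quotient.eq_zero_iff_mem.2 h
  · intro i
    apply Ideal.Quotient.eq_zero_iff_mem.1
    rw [map_sub, map_mul, hΨ, hψ, hP, sub_self]
  · intro j
    rw [← hΨC, ← hΨC]
    have h1 := hmg_map Ψ N P (Polynomial.C Q) (f j)
    rw [← h1, ← map_mul, ← map_mul]
    congr 1
    rw [← Finset.prod_erase_mul Finset.univ a' (Finset.mem_univ j), Polynomial.C_mul, mul_assoc, hS j]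
    ring

end Pool.Agent.Run7.h652.ZC
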