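import Mathlib
import Pool.Agent.Q49.TL.Grb
import Pool.Agent.Q34.TL.Hen
import Pool.Agent.Run7.h652.ZC.GenP

/-!
The approximation theorem of Greenberg in characteristic `p`, for a family of extensions.
-/

set_option autoImplicit false
set_option linter.style.haveILetI false

namespace Pool.Agent.Run7.h652.ZC

open MvPolynomial
open Pool.Agent.Q49.TL

theorem grb_p (p : ℕ) [Fact p.Prime] (A : Type) [CommRing A] [IsDomain A]
    [IsDiscreteValuationRing A] [CharP A p] (π : A) (hπ : Irreducible π)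
    (hPB : ∀ a : A, ∃ b : Fin p → A, a = ∑ r : Fin p, π ^ r.1 * b r ^ p)
    (I : Type) (B : I → Type) [∀ i, CommRing (B i)] [∀ i, IsDomain (B i)]
    [∀ i, IsDiscreteValuationRing (B i)] [∀ i, HenselianLocalRing (B i)]
    [∀ i, Algebra A (B i)] (hB : ∀ i, Irreducible (algebraMap A (B i) π))
    (ι κ : Type) [Finite ι] [Fintype κ] (w : ι → ℕ) (f : κ → MvPolynomial ι A)
    (happ : ∀ c : ℕ, ∃ (i : I) (x : ι → B i), (∃ j, ¬ (algebraMap A (B i) π) ^ w j ∣ x j) ∧
      ∀ j, (algebraMap A (B i) π) ^ c ∣ aeval x (f j)) :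
    ∃ (i : I) (x : ι → B i), x ≠ 0 ∧ ∀ j, aeval x (f j) = 0 := by
  classical
  have hp : p.Prime := Fact.out
  let App : Ideal (MvPolynomial ι A) → Prop := fun q => ∀ c : ℕ, ∃ (i : I) (x : ι → B i),
    (∃ j, ¬ (algebraMap A (B i) π) ^ w j ∣ x j) ∧
      ∀ h ∈ q, (algebraMap A (B i) π) ^ c ∣ aeval x h
  have h0 : App (Ideal.span (Set.range f)) := by
    intro c
    obtain ⟨i, x, hx, hc⟩ := happ c
    refine ⟨i, x, hx, fun h hh => ?_⟩
    induction hh using Submodule.span_induction with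
    | mem h hh =>
      obtain ⟨j, rfl⟩ := hh
      exact hc j
    | zero => rw [map_zero]; exact dvd_zero _
    | add a b _ _ ha hb => rw [map_add]; exact dvd_add ha hb
    | smul r a _ ha => rw [smul_eq_mul, map_mul]; exact Dvd.dvd.mul_left ha _
  obtain ⟨q, ⟨hq1, hq2⟩, hqmax⟩ := (wellFounded_gt (α := Ideal (MvPolynomial ι A))).has_min
    {q | App q ∧ Ideal.span (Set.range f) ≤ q} ⟨_, h0, le_rfl⟩
  -- elements outside of `q`
  have hkey : ∀ a : MvPolynomial ι A, a ∉ q → ∃ c0 : ℕ, ∀ (i : I) (x : ι → B i),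
      (∃ j, ¬ (algebraMap A (B i) π) ^ w j ∣ x j) →
      (∀ h ∈ q, (algebraMap A (B i) π) ^ c0 ∣ aeval x h) →
      ¬ (algebraMap A (B i) π) ^ c0 ∣ aeval x a := by
    intro a ha
    have h3 : ¬ App (q ⊔ Ideal.span {a}) := by
      intro h4
      refine hqmax (q ⊔ Ideal.span {a}) ⟨h4, hq2.trans le_sup_left⟩ ?_
      change q < q ⊔ Ideal.span {a}
      refine lt_of_le_of_ne le_sup_left ?_
      intro h5
      apply ha
      rw [h5]
      exact (le_sup_right : Ideal.span {a} ≤ q ⊔ Ideal.span {a})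
        (Ideal.mem_span_singleton_self a)
    simp only [App] at h3
    push Not at h3
    obtain ⟨c0, hc0⟩ := h3
    refine ⟨c0, fun i x hx hxq hxa => ?_⟩
    obtain ⟨h, hh, hh2⟩ := hc0 i x hx
    apply hh2
    obtain ⟨b, hb, r, hr, rfl⟩ := Submodule.mem_sup.1 hh
    obtain ⟨s, rfl⟩ := Ideal.mem_span_singleton'.1 hr
    rw [map_add, map_mul]
    exact dvd_add (hxq b hb) (Dvd.dvd.mul_left hxa _)
  have hpow : ∀ (i : I) (x : ι → B i) (m n : ℕ), m ≤ n →
      (∀ h ∈ q, (algebraMap A (B i) π) ^ n ∣ aeval x h) →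
      ∀ h ∈ q, (algebraMap A (B i) π) ^ m ∣ aeval x h :=
    fun i x m n hmn h g hg => (pow_dvd_pow _ hmn).trans (h g hg)
  have hprime : q.IsPrime := by
    refine ⟨?_, ?_⟩
    · intro htop
      obtain ⟨i, x, -, hx⟩ := hq1 1
      have h3 := hx 1 (by rw [htop]; trivial)
      rw [map_one, pow_one] at h3
      exact (hB i).not_isUnit (isUnit_of_dvd_one h3)
    · intro a b hab
      by_contra hcon
      push Not at hcon
      obtain ⟨ca, hca⟩ := hkey a hcon.1
      obtain ⟨cb, hcb⟩ := hkey b hcon.2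
      obtain ⟨i, x, hx, hxq⟩ := hq1 (ca + cb)
      have h3 := hca i x hx (hpow i x _ _ (Nat.le_add_right _ _) hxq)
      have h4 := hcb i x hx (hpow i x _ _ (Nat.le_add_left _ _) hxq)
      have h5 := hxq _ hab
      rw [map_mul] at h5
      exact dvr_mul (hB i) h3 h4 h5
  have hconst : ∀ a : A, C a ∈ q → a = 0 := by
    intro a ha
    by_contra ha0
    obtain ⟨n, u, hu⟩ := IsDiscreteValuationRing.eq_unit_mul_pow_irreducible ha0 hπ
    obtain ⟨i, x, -, hx⟩ := hq1 (n + 1)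
    have h3 := hx _ ha
    rw [← algebraMap_eq, AlgHom.commutes, hu, map_mul, map_pow] at h3
    have h4 := (dvr_pow_dvd (hB i) (Units.map (algebraMap A (B i) : A →* B i) u) (n + 1) n).1 h3
    omega
  haveI : CharP (MvPolynomial ι A) p := inferInstance
  -- the sums `∑ π ^ r y_r ^ p`
  have hsum : ∀ y : Fin p → MvPolynomial ι A, ∑ r : Fin p, C (π ^ r.1) * y r ^ p ∈ q →
      ∀ r, y r ∈ q := by
    intro y hy
    by_contra hcon
    push Not at hcon
    obtain ⟨r₁, hr₁⟩ := hcon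
    choose! c hc using fun r (hr : y r ∉ q) => hkey (y r) hr
    set c1 := ∑ r, c r with hc1
    have hcle : ∀ r, c r ≤ c1 := fun r => Finset.single_le_sum (fun _ _ => Nat.zero_le _)
      (Finset.mem_univ r)
    obtain ⟨i, x, hx, hxq⟩ := hq1 (p * (c1 + 1) + p)
    set ϖ : B i := algebraMap A (B i) π with hϖd
    have hϖ : Irreducible ϖ := hB i
    have hle1 : c1 ≤ p * (c1 + 1) + p := by
      have := hp.one_lt
      nlinarith
    have hnd : ∀ r, y r ∉ q → ¬ ϖ ^ c1 ∣ aeval x (y r) := by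
      intro r hr h
      exact hc r hr i x hx (hpow i x _ _ ((hcle r).trans hle1) hxq)
        ((pow_dvd_pow _ (hcle r)).trans h)
    have hex : ∀ r, y r ∉ q → ∃ (n : ℕ) (u : (B i)ˣ), aeval x (y r) = u * ϖ ^ n := by
      intro r hr
      refine IsDiscreteValuationRing.eq_unit_mul_pow_irreducible (fun h => ?_) hϖ
      exact hnd r hr (h ▸ dvd_zero _)
    choose! v u hv using hex
    have hvlt : ∀ r, y r ∉ q → v r < c1 := by
      intro r hr
      have h1 := hnd r hr
      rw [hv r hr, dvr_pow_dvd hϖ, not_le] at h1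
      exact h1
    obtain ⟨r₀, hr₀, hmin⟩ := Finset.exists_min_image
      (Finset.univ.filter fun r => y r ∉ q) (fun r => r.1 + p * v r)
      ⟨r₁, Finset.mem_filter.2 ⟨Finset.mem_univ _, hr₁⟩⟩
    rw [Finset.mem_filter] at hr₀
    have hr₀' := hr₀.2
    set e := r₀.1 + p * v r₀ with he
    have he2 : e + 1 ≤ p * (c1 + 1) + p := by
      have h1 := hvlt r₀ hr₀'
      have h2 := r₀.2
      nlinarith
    have hall := hxq _ hy
    rw [map_sum] at hall
    have hterm : ∀ r : Fin p, aeval x (C (π ^ r.1) * y r ^ p) = ϖ ^ r.1 * aeval x (y r) ^ p := by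
      intro r
      rw [map_mul, aeval_C, map_pow, map_pow]
    have hother : ∀ r ∈ Finset.univ.erase r₀, ϖ ^ (e + 1) ∣ aeval x (C (π ^ r.1) * y r ^ p) := by
      intro r hr
      rw [hterm]
      by_cases hrq : y r ∈ q
      · have h1 : ϖ ^ (p * (c1 + 1) + p) ∣ aeval x (y r) := hxq _ hrq
        refine ((pow_dvd_pow _ he2).trans (h1.trans ?_))
        exact (dvd_pow_self _ hp.ne_zero).trans (Dvd.intro_left _ rfl)
      · have h1 := hmin r (Finset.mem_filter.2 ⟨Finset.mem_univ _, hrq⟩)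
        have h2 : r.1 + p * v r ≠ e := by
          intro h3
          apply Finset.ne_of_mem_erase hr
          apply Fin.ext
          have h4 := congrArg (· % p) h3
          simp only [he, Nat.add_mul_mod_self_left, Nat.mod_eq_of_lt r.2,
            Nat.mod_eq_of_lt r₀.2] at h4
          exact h4
        have h3 : e + 1 ≤ r.1 + p * v r := by
          have h4 : e ≤ r.1 + p * v r := h1
          omega
        rw [hv r hrq]
        have h4 : ϖ ^ r.1 * (↑(u r) * ϖ ^ v r) ^ p = (u r : B i) ^ p * ϖ ^ (r.1 + p * v r) := by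
          rw [mul_pow, ← pow_mul, pow_add, mul_comm (v r) p]
          ring
        rw [h4]
        exact (pow_dvd_pow _ h3).mul_left _
    have hlast : ϖ ^ (e + 1) ∣ aeval x (C (π ^ r₀.1) * y r₀ ^ p) := by
      have h1 := (pow_dvd_pow ϖ he2).trans hall
      rw [← Finset.add_sum_erase _ _ (Finset.mem_univ r₀)] at h1
      exact (dvd_add_left (Finset.dvd_sum hother)).1 h1
    rw [hterm, hv r₀ hr₀'] at hlast
    have h4 : ϖ ^ r₀.1 * (↑(u r₀) * ϖ ^ v r₀) ^ p = ((u r₀ ^ p : (B i)ˣ) : B i) * ϖ ^ e := by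
      rw [he, mul_pow, ← pow_mul, pow_add, mul_comm (v r₀) p, Units.val_pow_eq_pow_val]
      ring
    rw [h4, dvr_pow_dvd hϖ] at hlast
    omega
  have Hq : ∀ (τ : Type) [Fintype τ] (c : τ → A) (u : τ → MvPolynomial ι A), c ≠ 0 →
      ∑ i, C (c i) * u i ^ p ∈ q → ∃ b : τ → A, b ≠ 0 ∧ ∑ i, C (b i) * u i ∈ q := by
    intro τ _ c u hc hcu
    choose b hb using hPB
    have h1 : ∑ r : Fin p, C (π ^ r.1) * (∑ z, C (b (c z) r) * u z) ^ p
        = ∑ z, C (c z) * u z ^ p := by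
      have h2 : ∀ r : Fin p, (∑ z, C (b (c z) r) * u z) ^ p = ∑ z, C (b (c z) r ^ p) * u z ^ p := by
        intro r
        rw [sum_pow_char]
        exact Finset.sum_congr rfl fun z _ => by rw [mul_pow, ← map_pow]
      rw [Finset.sum_congr rfl fun r _ => by rw [h2 r, Finset.mul_sum], Finset.sum_comm]
      refine Finset.sum_congr rfl fun z _ => ?_
      conv_rhs => rw [hb (c z), map_sum, Finset.sum_mul]
      refine Finset.sum_congr rfl fun r _ => ?_
      rw [map_mul]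
      ring
    have h3 := hsum _ (h1 ▸ hcu)
    obtain ⟨z₀, hz₀⟩ := Function.ne_iff.1 hc
    obtain ⟨r, hr⟩ : ∃ r, b (c z₀) r ≠ 0 := by
      by_contra h
      push Not at h
      apply hz₀
      rw [hb (c z₀), Pi.zero_apply]
      refine Finset.sum_eq_zero fun r _ => ?_
      rw [h r, zero_pow hp.ne_zero, mul_zero]
    exact ⟨fun z => b (c z) r, Function.ne_iff.2 ⟨z₀, hr⟩, h3 r⟩
  obtain ⟨N, Θ, a, Q, G, P, S, hN, ha, hQ, hG, hG', hP, hS⟩ := gen_p p A ι q hprime hconst Hq κ f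
    fun j => hq2 (Ideal.subset_span ⟨j, rfl⟩)
  have hD : a * Q * G.derivative.eval Θ ∉ q := by
    intro h3
    rcases hprime.mem_or_mem h3 with h3 | h3
    · rcases hprime.mem_or_mem h3 with h3 | h3
      · exact ha h3
      · exact hQ h3
    · exact hG' h3
  obtain ⟨c0, hc0⟩ := hkey _ hD
  obtain ⟨W, hW⟩ : ∃ W : ℕ, ∀ j, w j ≤ W := by
    obtain ⟨W, hW⟩ := (Set.finite_range w).bddAbove
    exact ⟨W, fun j => hW ⟨j, rfl⟩⟩
  let c := 3 * c0 + W + 1
  obtain ⟨i, x, hxN, hx⟩ := hq1 c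
  let ρ : MvPolynomial ι A →ₐ[A] B i := aeval x
  let ϖ : B i := algebraMap A (B i) π
  have hϖ : Irreducible ϖ := hB i
  have h3 : ¬ ϖ ^ c0 ∣ ρ (a * Q * G.derivative.eval Θ) :=
    hc0 i x hxN (hpow i x _ _ (by omega) hx)
  rw [map_mul, map_mul] at h3
  have ha1 : ¬ ϖ ^ c0 ∣ ρ a := fun h => h3 ((h.mul_right _).mul_right _)
  have hQ1 : ¬ ϖ ^ c0 ∣ ρ Q := fun h => h3 ((h.mul_left _).mul_right _)
  have hδ1 : ¬ ϖ ^ c0 ∣ ρ (G.derivative.eval Θ) := fun h => h3 (h.mul_left _)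
  obtain ⟨Q', hQ'⟩ := dvr_dvd_pow hϖ hQ1
  obtain ⟨δ', hδ'⟩ := dvr_dvd_pow hϖ hδ1
  let g : Polynomial (B i) := G.map (ρ : MvPolynomial ι A →+* B i)
  have hev : ∀ (H : Polynomial (MvPolynomial ι A)) (t : MvPolynomial ι A),
      (H.map (ρ : MvPolynomial ι A →+* B i)).eval (ρ t) = ρ (H.eval t) := by
    intro H t
    exact Polynomial.eval_map_apply (ρ : MvPolynomial ι A →+* B i) t
  have hgb : g.eval (ρ Θ) = ρ (G.eval Θ) := hev G Θ
  have hgb' : g.derivative.eval (ρ Θ) = ρ (G.derivative.eval Θ) := by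
    change (G.map _).derivative.eval _ = _
    rw [Polynomial.derivative_map]
    exact hev _ Θ
  obtain ⟨t, ht⟩ := hx _ hG
  let ε : B i := ϖ ^ (c0 + W + 1) * (δ' ^ 2 * t)
  have hε : ε ∈ IsLocalRing.maximalIdeal (B i) := by
    apply Ideal.mul_mem_right
    rw [pow_succ]
    apply Ideal.mul_mem_left
    exact (IsLocalRing.mem_maximalIdeal _).2 hϖ.not_isUnit
  have hgε : g.eval (ρ Θ) = (g.derivative.eval (ρ Θ)) ^ 2 * ε := by
    rw [hgb, hgb']
    change aeval x (G.eval Θ) = _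
    rw [ht]
    calc (algebraMap A (B i) π) ^ c * t = ϖ ^ c * t := rfl
      _ = (ϖ ^ c0) ^ 2 * (ϖ ^ (c0 + W + 1) * t) := by
        rw [← pow_mul, ← mul_assoc, ← pow_add]
        congr 2
        omega
      _ = (ρ (G.derivative.eval Θ) * δ') ^ 2 * (ϖ ^ (c0 + W + 1) * t) := by rw [hδ']
      _ = _ := by
        simp only [ε]
        ring
  obtain ⟨u, hu⟩ := Q34.TL.hen (B i) g (ρ Θ) ε hε hgε
  let θ' : B i := ρ Θ + g.derivative.eval (ρ Θ) * ε * u
  have hθ' : g.eval θ' = 0 := hu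
  -- the coordinates
  have hcoord : ∀ j, ∃ y : B i, ((P j).map (ρ : MvPolynomial ι A →+* B i)).eval θ' = ρ Q * y ∧
      ϖ ^ (W + 1) ∣ x j - y := by
    intro j
    obtain ⟨s, hs⟩ := hx _ (hP j)
    obtain ⟨r, hr⟩ := Polynomial.sub_dvd_eval_sub θ' (ρ Θ)
      ((P j).map (ρ : MvPolynomial ι A →+* B i))
    have h4 : θ' - ρ Θ = ϖ ^ (c0 + W + 1) * (g.derivative.eval (ρ Θ) * (δ' ^ 2 * t) * u) := by
      simp only [θ', ε]
      ring
    rw [h4, hev] at hr
    have h5 : ρ Q * x j - ρ ((P j).eval Θ) = ϖ ^ c * s := by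
      have h6 : aeval x (Q * X j - (P j).eval Θ) = ρ Q * x j - ρ ((P j).eval Θ) := by
        rw [map_sub, map_mul, aeval_X]
      rw [← h6]
      exact hs
    let z : B i := g.derivative.eval (ρ Θ) * (δ' ^ 2 * t) * u * r - ϖ ^ (2 * c0) * s
    refine ⟨x j + ϖ ^ (W + 1) * (Q' * z), ?_, ?_⟩
    · have h7 : ((P j).map (ρ : MvPolynomial ι A →+* B i)).eval θ' =
          ρ Q * x j + ϖ ^ (c0 + W + 1) * z := by
        have h8 : ϖ ^ c = ϖ ^ (c0 + W + 1) * ϖ ^ (2 * c0) := by
          rw [← pow_add]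
          congr 1
          omega
        have h9 : ((P j).map (ρ : MvPolynomial ι A →+* B i)).eval θ' =
            ρ ((P j).eval Θ) + ϖ ^ (c0 + W + 1) *
              (g.derivative.eval (ρ Θ) * (δ' ^ 2 * t) * u) * r := by
          rw [← hr]; ring
        have h10 : ρ ((P j).eval Θ) = ρ Q * x j - ϖ ^ (c0 + W + 1) * ϖ ^ (2 * c0) * s := by
          rw [← h8, ← h5]; ring
        rw [h9, h10]
        simp only [z]
        ring
      rw [h7]
      have h11 : ϖ ^ (c0 + W + 1) = ρ Q * Q' * ϖ ^ (W + 1) := by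
        rw [hQ', ← pow_add]
        congr 1
      rw [h11]
      ring
    · refine ⟨-(Q' * z), ?_⟩
      ring
  choose y hy1 hy2 using hcoord
  refine ⟨i, y, ?_, ?_⟩
  · intro hy0
    obtain ⟨j, hj⟩ := hxN
    apply hj
    have h4 := hy2 j
    rw [hy0, Pi.zero_apply, sub_zero] at h4
    exact (pow_dvd_pow _ ((hW j).trans (Nat.le_succ W))).trans h4
  · intro j
    let T : Polynomial (MvPolynomial ι A) →+* B i :=
      Polynomial.eval₂RingHom (ρ : MvPolynomial ι A →+* B i) θ'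
    have hT : ∀ H : Polynomial (MvPolynomial ι A),
        T H = (H.map (ρ : MvPolynomial ι A →+* B i)).eval θ' := by
      intro H
      rw [Polynomial.eval_map]
      rfl
    have hTC : ∀ t : MvPolynomial ι A, T (Polynomial.C t) = ρ t := by
      intro t
      rw [hT, Polynomial.map_C, Polynomial.eval_C]
      rfl
    have h4 := hmg_eval T (by
      intro r
      change T (Polynomial.C (algebraMap A (MvPolynomial ι A) r)) = _
      rw [hTC, AlgHom.commutes]) N P (Polynomial.C Q) (f j) (hN j) y (by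
      intro l
      rw [hT, hTC, hy1])
    have h5 := congrArg T (hS j)
    rw [map_mul, map_mul, hTC, h4, hTC, hT G] at h5
    change ρ a * (ρ Q ^ N * aeval y (f j)) = g.eval θ' * T (S j) at h5
    rw [hθ', zero_mul] at h5
    have ha0 : ρ a ≠ 0 := fun h => ha1 (h ▸ dvd_zero _)
    have hQ0 : ρ Q ≠ 0 := fun h => hQ1 (h ▸ dvd_zero _)
    rcases mul_eq_zero.1 h5 with h6 | h6
    · exact absurd h6 ha0
    · rcases mul_eq_zero.1 h6 with h6 | h6
      · exact ((pow_ne_zero N hQ0) h6).elim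
      · exact h6

end Pool.Agent.Run7.h652.ZC
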