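import Mathlib
import Pool.Agent.Run7.h652.ZC.GrbP

/-!
Rings of power series over finite fields.
-/

set_option autoImplicit false

namespace Pool.Agent.Run7.h652.ZC

open PowerSeries

/-- Hensel's lemma for rings of power series -/
theorem henselian_powerSeries (F : Type) [Field F] : HenselianLocalRing (PowerSeries F) where
  is_henselian := by
    have h1 : HenselianRing (PowerSeries F) (Ideal.span {(X : PowerSeries F)}) := inferInstance
    rw [maximalIdeal_eq_span_X]
    intro f hf a₀ h2 h3
    exact h1.is_henselian f hf a₀ h2 (h3.map _)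

theorem coeff_pow_char {F : Type} [Field F] (p : ℕ) [Fact p.Prime] [CharP F p]
    (b : PowerSeries F) (n : ℕ) :
    coeff n (b ^ p) = if p ∣ n then coeff (n / p) b ^ p else 0 := by
  have hp : p.Prime := Fact.out
  have h1 : b ^ p = (PowerSeries.expand p hp.ne_zero b).map (frobenius F p) :=
    (MvPowerSeries.map_frobenius_expand p hp.ne_zero (f := b)).symm
  rw [h1, coeff_map, coeff_expand]
  split_ifs with h
  · rfl
  · exact map_zero _

/-- a `p`-basis -/
theorem pbasis (F : Type) [Field F] [Finite F] (p : ℕ) [Fact p.Prime] [CharP F p]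
    (a : PowerSeries F) : ∃ b : Fin p → PowerSeries F, a = ∑ r : Fin p, X ^ r.1 * b r ^ p := by
  classical
  have hp : p.Prime := Fact.out
  have hperf : PerfectRing F p := inferInstance
  let b : Fin p → PowerSeries F := fun r =>
    PowerSeries.mk fun n => (frobeniusEquiv F p).symm (coeff (p * n + r.1) a)
  refine ⟨b, ?_⟩
  ext n
  rw [map_sum]
  have h1 : ∀ r : Fin p, coeff n ((X : PowerSeries F) ^ r.1 * b r ^ p)
      = if r.1 = n % p then coeff n a else 0 := by
    intro r
    have hr := r.2
    rw [PowerSeries.coeff_X_pow_mul']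
    by_cases h2 : r.1 ≤ n
    · rw [if_pos h2, coeff_pow_char]
      by_cases h3 : r.1 = n % p
      · have h4 : p ∣ n - r.1 := by
          rw [h3]
          exact Nat.dvd_sub_mod n
        obtain ⟨c, hc⟩ := h4
        rw [if_pos (Dvd.intro c hc.symm), if_pos h3, hc, Nat.mul_div_cancel_left _ hp.pos]
        show coeff c (PowerSeries.mk fun n =>
          (frobeniusEquiv F p).symm (coeff (p * n + r.1) a)) ^ p = _
        rw [coeff_mk, ← hc, Nat.sub_add_cancel h2]
        exact (frobeniusEquiv F p).apply_symm_apply _
      · rw [if_neg h3, if_neg]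
        rintro ⟨c, hc⟩
        apply h3
        have h5 : n = r.1 + p * c := by omega
        rw [h5, Nat.add_mul_mod_self_left, Nat.mod_eq_of_lt hr]
    · rw [if_neg h2, if_neg]
      intro h3
      apply h2
      rw [h3]
      exact Nat.mod_le n p
  rw [Finset.sum_congr rfl fun r _ => h1 r,
    Finset.sum_eq_single (⟨n % p, Nat.mod_lt n hp.pos⟩ : Fin p)]
  · rw [if_pos rfl]
  · intro r _ hr
    rw [if_neg]
    intro h
    exact hr (Fin.ext h)
  · intro h
    exact absurd (Finset.mem_univ _) h

end Pool.Agent.Run7.h652.ZC
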