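import Mathlib
import Pool.Agent.Q225.TL.Loc
import Pool.Agent.Run7.h652.ZC.Pow
import Pool.Agent.Run7.h652.LP.Glob

/-!
Approximate solutions over rings of power series.
-/

set_option autoImplicit false

namespace Pool.Agent.Run7.h652.ZC

open MvPolynomial
open Pool.Agent.Q49.TL (Tsen)
open Pool.Agent.Q225.TL (WHs eval_scale)

theorem approx {φ : ℕ → ℕ} (F : Type) [Field F] (h : Tsen φ F) (ι κ : Type) [Fintype ι]
    [Fintype κ] (w : ι → ℕ) (e : κ → ℕ) (g : κ → MvPolynomial ι (PowerSeries F))
    (hw : ∀ i, 0 < w i) (he : ∀ j, 0 < e j) (hg : ∀ j, IsWeightedHomogeneous w (g j) (e j))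
    (hlt : ∑ j, e j * φ (e j) < ∑ i, w i * φ (w i)) (M : ℕ) :
    ∃ x : ι → PowerSeries F, (∃ i, ¬ (PowerSeries.X : PowerSeries F) ^ w i ∣ x i) ∧
      ∀ j, (PowerSeries.X : PowerSeries F) ^ M ∣ eval x (g j) := by
  classical
  set s : ℕ := M * ∑ j, φ (e j) + 1 with hs
  set σ := (Σ i : ι, Fin (w i * s)) with hσ
  set W : σ → ℕ := fun a => w a.1 with hW
  set Xs : ι → PowerSeries (MvPolynomial σ F) := fun i =>
    PowerSeries.mk fun k => if hk : k < w i * s then X ⟨i, ⟨k, hk⟩⟩ else 0 with hXs
  have hXw : ∀ i, WHs W (w i) (Xs i) := by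
    intro i m
    rw [hXs]
    simp only [PowerSeries.coeff_mk]
    split_ifs with hk
    · exact isWeightedHomogeneous_X F W (⟨i, ⟨m, hk⟩⟩ : σ)
    · exact isWeightedHomogeneous_zero F W _
  obtain ⟨y, hy0, hy⟩ := h σ (Σ j : κ, Fin (e j * s + M)) W (fun b => e b.1)
    (fun b => PowerSeries.coeff (b.2 : ℕ) (MvPolynomial.eval₂ (PowerSeries.map (C : F →+* MvPolynomial σ F)) Xs (g b.1)))
    (fun a => hw _) (fun b => he _) (fun b => WHs.eval₂ w (e b.1) (g b.1) (hg b.1) Xs hXw _) (by
      show ∑ b : (Σ j : κ, Fin (e j * s + M)), φ (e b.1) < ∑ a : σ, φ (w a.1)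
      rw [Fintype.sum_sigma, Fintype.sum_sigma]
      simp only [Finset.sum_const, Finset.card_univ, Fintype.card_fin, smul_eq_mul]
      have e1 : ∑ j, (e j * s + M) * φ (e j) = s * ∑ j, e j * φ (e j) + M * ∑ j, φ (e j) := by
        rw [Finset.mul_sum, Finset.mul_sum, ← Finset.sum_add_distrib]
        exact Finset.sum_congr rfl fun j _ => by ring
      have e2 : ∑ i, w i * s * φ (w i) = s * ∑ i, w i * φ (w i) := by
        rw [Finset.mul_sum]
        exact Finset.sum_congr rfl fun j _ => by ring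
      rw [e1, e2]
      nlinarith)
  set x : ι → PowerSeries F := fun i => PowerSeries.mk fun k => if hk : k < w i * s then y ⟨i, ⟨k, hk⟩⟩ else 0 with hx
  have hxe : ∀ j, PowerSeries.map (eval y) (MvPolynomial.eval₂ (PowerSeries.map (C : F →+* MvPolynomial σ F)) Xs (g j)) =
      eval x (g j) := by
    intro j
    rw [eval₂_comp_left]
    have e1 : (PowerSeries.map (eval y)).comp (PowerSeries.map (C : F →+* MvPolynomial σ F)) = RingHom.id _ := by
      apply RingHom.ext
      intro r
      apply PowerSeries.ext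
      intro n
      simp
    have e2 : (PowerSeries.map (eval y)) ∘ Xs = x := by
      funext i
      apply PowerSeries.ext
      intro n
      simp only [Function.comp, hXs, hx, PowerSeries.coeff_map, PowerSeries.coeff_mk]
      split_ifs with hk
      · exact eval_X _
      · exact map_zero _
    rw [e1, e2]
    rfl
  have hdvd : ∀ j, (PowerSeries.X : PowerSeries F) ^ (e j * s + M) ∣ eval x (g j) := by
    intro j
    rw [PowerSeries.X_pow_dvd_iff]
    intro m hm
    rw [← hxe, PowerSeries.coeff_map]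
    exact hy ⟨j, ⟨m, hm⟩⟩
  -- the least `a`
  have hex : ∃ a : ℕ, ∃ i, ¬ (PowerSeries.X : PowerSeries F) ^ ((a + 1) * w i) ∣ x i := by
    obtain ⟨⟨i, k⟩, hk⟩ := Function.ne_iff.1 hy0
    refine ⟨s - 1, i, fun hd => hk ?_⟩
    rw [PowerSeries.X_pow_dvd_iff] at hd
    have h1 := hd k (by
      have h2 := k.2
      rw [show (s - 1 + 1) * w i = w i * s by rw [show s - 1 + 1 = s by omega, mul_comm]]
      exact h2)
    simpa [hx] using h1
  set a := Nat.find hex with ha
  have ha1 := Nat.find_spec hex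
  have ha2 : ∀ i, (PowerSeries.X : PowerSeries F) ^ (a * w i) ∣ x i := by
    rcases Nat.eq_zero_or_pos a with h0 | h0
    · intro i
      rw [h0, Nat.zero_mul, pow_zero]
      exact one_dvd _
    · have := Nat.find_min hex (m := a - 1) (by omega)
      push Not at this
      rwa [show a - 1 + 1 = a by omega] at this
  have ha3 : a ≤ s := by
    have : a ≤ s - 1 := by
      apply Nat.find_min' hex
      obtain ⟨⟨i, k⟩, hk⟩ := Function.ne_iff.1 hy0
      refine ⟨i, fun hd => hk ?_⟩
      rw [PowerSeries.X_pow_dvd_iff] at hd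
      have h1 := hd k (by
        have h2 := k.2
        rw [show (s - 1 + 1) * w i = w i * s by rw [show s - 1 + 1 = s by omega, mul_comm]]
        exact h2)
      simpa [hx] using h1
    omega
  choose x' hx' using ha2
  refine ⟨x', ?_, ?_⟩
  · obtain ⟨i, hi⟩ := ha1
    refine ⟨i, fun hd => hi ?_⟩
    rw [hx' i, Nat.add_mul, Nat.one_mul, pow_add]
    exact mul_dvd_mul_left _ hd
  · intro j
    have e1 : eval x (g j) = ((PowerSeries.X : PowerSeries F) ^ a) ^ e j * eval x' (g j) := by
      rw [← eval_scale w (e j) (g j) (hg j)]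
      congr 1
      congr 1
      funext i
      rw [hx' i, pow_mul]
    have e2 := hdvd j
    rw [e1, ← pow_mul] at e2
    obtain ⟨r, hr⟩ : ∃ r, e j * s + M = a * e j + (r + M) := by
      refine ⟨e j * s - a * e j, ?_⟩
      have : a * e j ≤ e j * s := by
        rw [mul_comm a]
        exact Nat.mul_le_mul_left _ ha3
      omega
    rw [hr, pow_add] at e2
    have e3 := (mul_dvd_mul_iff_left (pow_ne_zero _ PowerSeries.X_ne_zero)).1 e2
    rw [pow_add] at e3
    exact (Dvd.intro_left _ rfl).trans e3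

theorem X_pow_dvd_map {F F' : Type} [Field F] [Field F'] [Algebra F F'] (n : ℕ)
    (s : PowerSeries F) : (PowerSeries.X : PowerSeries F') ^ n ∣ PowerSeries.map (algebraMap F F') s ↔
      (PowerSeries.X : PowerSeries F) ^ n ∣ s := by
  rw [PowerSeries.X_pow_dvd_iff, PowerSeries.X_pow_dvd_iff]
  refine forall_congr' fun m => forall_congr' fun _ => ?_
  rw [PowerSeries.coeff_map]
  exact map_eq_zero _

theorem eval_sub_mem {R ι : Type} [CommRing R] (I : Ideal R) (f : MvPolynomial ι R) (x y : ι → R)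
    (h : ∀ i, x i - y i ∈ I) : eval x f - eval y f ∈ I := by
  rw [← Ideal.Quotient.eq, ← eval₂_id, ← eval₂_id, hom_eval₂, hom_eval₂]
  congr 1
  funext i
  exact Ideal.Quotient.eq.2 (h i)

/-- approximate solutions over finite subfields -/
theorem approx_fin {φ : ℕ → ℕ} (F N : Type) [Field F] [Field N] [Algebra F N]
    [Algebra.IsAlgebraic F N] (h : Tsen φ N) (ι κ : Type) [Fintype ι] [Fintype κ] (w : ι → ℕ)
    (e : κ → ℕ) (g : κ → MvPolynomial ι (PowerSeries F))
    (hw : ∀ i, 0 < w i) (he : ∀ j, 0 < e j) (hg : ∀ j, IsWeightedHomogeneous w (g j) (e j))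
    (hlt : ∑ j, e j * φ (e j) < ∑ i, w i * φ (w i)) (M : ℕ) :
    ∃ (F' : IntermediateField F N) (_ : FiniteDimensional F F') (x : ι → PowerSeries F'),
      (∃ i, ¬ (PowerSeries.X : PowerSeries F') ^ w i ∣ x i) ∧
      ∀ j, (PowerSeries.X : PowerSeries F') ^ M ∣ aeval x (g j) := by
  classical
  obtain ⟨W, hW⟩ : ∃ W : ℕ, ∀ i, w i ≤ W := by
    obtain ⟨W, hW⟩ := (Set.finite_range w).bddAbove
    exact ⟨W, fun j => hW ⟨j, rfl⟩⟩
  obtain ⟨x, hx, hx2⟩ := approx N h ι κ w e
    (fun j => map (PowerSeries.map (algebraMap F N)) (g j)) hw he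
    (fun j => Run7.h652.LP.wh_map _ (hg j)) hlt (M + W)
  -- truncation
  let S : Set N := ⋃ i, ((fun m => PowerSeries.coeff m (x i)) '' (Set.Iio (M + W)))
  have hS : S.Finite := Set.finite_iUnion fun i => (Set.finite_Iio _).image _
  have hmem : ∀ i, ∀ m < M + W, PowerSeries.coeff m (x i) ∈ IntermediateField.adjoin F S := by
    intro i m hm
    exact IntermediateField.subset_adjoin F S (Set.mem_iUnion.2 ⟨i, ⟨m, hm, rfl⟩⟩)
  have := hS.to_subtype
  have hfin : FiniteDimensional F (IntermediateField.adjoin F S) :=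
    IntermediateField.finiteDimensional_adjoin fun y _ => Algebra.IsIntegral.isIntegral y
  let x' : ι → PowerSeries (IntermediateField.adjoin F S) := fun i =>
    PowerSeries.mk fun m => if hm : m < M + W then ⟨PowerSeries.coeff m (x i), hmem i m hm⟩ else 0
  have hxx : ∀ i, (PowerSeries.X : PowerSeries N) ^ (M + W) ∣
      PowerSeries.map (algebraMap (IntermediateField.adjoin F S) N) (x' i) - x i := by
    intro i
    rw [PowerSeries.X_pow_dvd_iff]
    intro m hm
    rw [map_sub, PowerSeries.coeff_map, sub_eq_zero]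
    show algebraMap (IntermediateField.adjoin F S) N (PowerSeries.coeff m (PowerSeries.mk _)) = _
    rw [PowerSeries.coeff_mk, dif_pos hm]
    rfl
  refine ⟨IntermediateField.adjoin F S, hfin, x', ?_, fun j => ?_⟩
  · obtain ⟨i, hi⟩ := hx
    refine ⟨i, fun hd => hi ?_⟩
    rw [← X_pow_dvd_map (F' := N)] at hd
    have h1 := (pow_dvd_pow (PowerSeries.X : PowerSeries N)
      ((hW i).trans (Nat.le_add_left W M))).trans (hxx i)
    have h2 := dvd_sub hd h1
    rwa [sub_sub_cancel] at h2
  · rw [← X_pow_dvd_map (F' := N)]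
    have h1 : PowerSeries.map (algebraMap (IntermediateField.adjoin F S) N) (aeval x' (g j))
        = eval (fun i => PowerSeries.map (algebraMap (IntermediateField.adjoin F S) N) (x' i))
          (map (PowerSeries.map (algebraMap F N)) (g j)) := by
      rw [eval_map, aeval_def, hom_eval₂]
      congr 1
    have h2 := eval_sub_mem (Ideal.span {(PowerSeries.X : PowerSeries N) ^ M})
      (map (PowerSeries.map (algebraMap F N)) (g j))
      (fun i => PowerSeries.map (algebraMap (IntermediateField.adjoin F S) N) (x' i)) x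
      (fun i => Ideal.mem_span_singleton.2
        ((pow_dvd_pow _ (Nat.le_add_right M W)).trans (hxx i)))
    rw [Ideal.mem_span_singleton] at h2
    rw [h1]
    have h3 := (pow_dvd_pow (PowerSeries.X : PowerSeries N) (Nat.le_add_right M W)).trans (hx2 j)
    have h4 := dvd_add h2 h3
    rwa [sub_add_cancel] at h4

end Pool.Agent.Run7.h652.ZC
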