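import Mathlib
import Pool.Agent.Run7.h652.ZC.Approx

/-!
The theorem of Tsen and Lang at a prime `ℓ` for fields of Laurent series.
-/

set_option autoImplicit false
set_option linter.style.haveILetI false

namespace Pool.Agent.Run7.h652.ZC

open MvPolynomial nonZeroDivisors
open Pool.Agent.Q49.TL (Tsen)

theorem exact_sol {φ : ℕ → ℕ} (F N : Type) [Field F] [Finite F] [Field N] [Algebra F N]
    [Algebra.IsAlgebraic F N] (h : Tsen φ N) (ι κ : Type) [Fintype ι] [Fintype κ] (w : ι → ℕ)
    (e : κ → ℕ) (g : κ → MvPolynomial ι (PowerSeries F))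
    (hw : ∀ i, 0 < w i) (he : ∀ j, 0 < e j) (hg : ∀ j, IsWeightedHomogeneous w (g j) (e j))
    (hlt : ∑ j, e j * φ (e j) < ∑ i, w i * φ (w i)) :
    ∃ (F' : IntermediateField F N) (_ : FiniteDimensional F F') (x : ι → PowerSeries F'),
      x ≠ 0 ∧ ∀ j, aeval x (g j) = 0 := by
  obtain ⟨p, hp⟩ := CharP.exists F
  have hpp : p.Prime := by
    rcases CharP.char_is_prime_or_zero F p with h | h
    · exact h
    · subst h
      have := CharP.charP_to_charZero F
      exact absurd ‹Finite F› (not_finite_iff_infinite.2 inferInstance)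
  have : Fact p.Prime := ⟨hpp⟩
  have : CharP (PowerSeries F) p :=
    charP_of_injective_ringHom (f := (PowerSeries.C : F →+* PowerSeries F))
      (PowerSeries.C_injective) p
  let I : Type := {F' : IntermediateField F N // FiniteDimensional F F'}
  let B : I → Type := fun i => PowerSeries i.1
  have hhen : ∀ i : I, HenselianLocalRing (B i) := fun i => henselian_powerSeries i.1
  obtain ⟨i, x, hx, hx2⟩ := grb_p p (PowerSeries F) PowerSeries.X PowerSeries.X_irreducible
    (pbasis F p) I B (fun i => by
      have h1 : algebraMap (PowerSeries F) (B i) PowerSeries.X = (PowerSeries.X : PowerSeries i.1) :=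
        PowerSeries.map_X _
      rw [h1]
      exact PowerSeries.X_irreducible) ι κ w g (fun c => by
      obtain ⟨F', hfin, x, hx1, hx2⟩ := approx_fin F N h ι κ w e g hw he hg hlt c
      have h1 : algebraMap (PowerSeries F) (B ⟨F', hfin⟩) PowerSeries.X
          = (PowerSeries.X : PowerSeries F') := PowerSeries.map_X _
      refine ⟨⟨F', hfin⟩, x, ?_, fun j => ?_⟩
      · rw [h1]
        exact hx1
      · rw [h1]
        exact hx2 j)
  exact ⟨i.1, i.2, x, hx, hx2⟩

section lau

variable (F N : Type) [Field F] [Field N] [Algebra F N]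

/-- the inclusion of a ring of power series -/
noncomputable def mm (F₁ : IntermediateField F N) : PowerSeries F₁ →+* LaurentSeries N :=
  (algebraMap (PowerSeries N) (LaurentSeries N)).comp (PowerSeries.map (algebraMap F₁ N))

theorem mm_injective (F₁ : IntermediateField F N) : Function.Injective (mm F N F₁) := by
  intro a b h
  have h1 := IsFractionRing.injective (PowerSeries N) (LaurentSeries N) h
  apply PowerSeries.ext
  intro n
  have h2 := congrArg (PowerSeries.coeff n) h1
  rw [PowerSeries.coeff_map, PowerSeries.coeff_map] at h2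
  exact (algebraMap F₁ N).injective h2

theorem mm_apply (F₁ : IntermediateField F N) (a : PowerSeries F₁) : mm F N F₁ a
    = algebraMap (PowerSeries N) (LaurentSeries N) (PowerSeries.map (algebraMap F₁ N) a) := rfl

theorem mm_incl {F₁ F₂ : IntermediateField F N} (h : F₁ ≤ F₂) (a : PowerSeries F₁) :
    mm F N F₂ (PowerSeries.map (IntermediateField.inclusion h : F₁ →+* F₂) a) = mm F N F₁ a := by
  rw [mm_apply, mm_apply]
  congr 1

theorem map_C_injective : Function.Injective (PowerSeries.map (algebraMap F N)) := by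
  intro a b h
  apply PowerSeries.ext
  intro n
  have h2 := congrArg (PowerSeries.coeff n) h
  rw [PowerSeries.coeff_map, PowerSeries.coeff_map] at h2
  exact (algebraMap F N).injective h2

/-- the inclusion of fields of Laurent series -/
noncomputable def lau : LaurentSeries F →+* LaurentSeries N :=
  IsFractionRing.map (A := PowerSeries F) (B := PowerSeries N) (map_C_injective F N)

theorem lau_algebraMap (a : PowerSeries F) :
    lau F N (algebraMap (PowerSeries F) (LaurentSeries F) a)
    = algebraMap (PowerSeries N) (LaurentSeries N) (PowerSeries.map (algebraMap F N) a) := by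
  unfold lau
  exact IsLocalization.map_eq _ a

/-- the constants -/
noncomputable def cst : N →+* LaurentSeries N :=
  (algebraMap (PowerSeries N) (LaurentSeries N)).comp PowerSeries.C

/-- the algebra structure -/
noncomputable abbrev lauAlg : Algebra (LaurentSeries F) (LaurentSeries N) := (lau F N).toAlgebra

/-- the field generated by the constants and by the Laurent series over `F` -/
noncomputable def NN : @IntermediateField (LaurentSeries F) (LaurentSeries N) _ _ (lauAlg F N) :=
  letI := lauAlg F N
  IntermediateField.adjoin (LaurentSeries F) (Set.range (cst N))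

variable {F N}

/-- `z` is a quotient of power series over the finite extension `F₁` -/
def Quo (F₁ : IntermediateField F N) (z : LaurentSeries N) : Prop :=
  ∃ a b : PowerSeries F₁, b ≠ 0 ∧ z * mm F N F₁ b = mm F N F₁ a

theorem Quo.mono {F₁ F₂ : IntermediateField F N} (h : F₁ ≤ F₂) {z : LaurentSeries N}
    (hz : Quo F₁ z) : Quo F₂ z := by
  obtain ⟨a, b, hb, h1⟩ := hz
  refine ⟨PowerSeries.map (IntermediateField.inclusion h : F₁ →+* F₂) a,
    PowerSeries.map (IntermediateField.inclusion h : F₁ →+* F₂) b, ?_, ?_⟩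
  · intro h0
    apply hb
    apply mm_injective F N F₁
    rw [← mm_incl F N h, h0, map_zero, map_zero]
  · rw [mm_incl, mm_incl, h1]

theorem Quo.add {F₁ : IntermediateField F N} {z z' : LaurentSeries N} (hz : Quo F₁ z)
    (hz' : Quo F₁ z') : Quo F₁ (z + z') := by
  obtain ⟨a, b, hb, h1⟩ := hz
  obtain ⟨a', b', hb', h1'⟩ := hz'
  refine ⟨a * b' + a' * b, b * b', mul_ne_zero hb hb', ?_⟩
  rw [map_mul, map_add, map_mul, map_mul, ← h1, ← h1']
  ring

theorem Quo.mul {F₁ : IntermediateField F N} {z z' : LaurentSeries N} (hz : Quo F₁ z)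
    (hz' : Quo F₁ z') : Quo F₁ (z * z') := by
  obtain ⟨a, b, hb, h1⟩ := hz
  obtain ⟨a', b', hb', h1'⟩ := hz'
  refine ⟨a * a', b * b', mul_ne_zero hb hb', ?_⟩
  rw [map_mul, map_mul, ← h1, ← h1']
  ring

theorem mm_ne_zero {F₁ : IntermediateField F N} {b : PowerSeries F₁} (hb : b ≠ 0) :
    mm F N F₁ b ≠ 0 := fun h => hb (mm_injective F N F₁ (h.trans (map_zero _).symm))

theorem Quo.inv {F₁ : IntermediateField F N} {z : LaurentSeries N} (hz : Quo F₁ z) :
    Quo F₁ z⁻¹ := by
  obtain ⟨a, b, hb, h1⟩ := hz
  rcases eq_or_ne z 0 with h0 | h0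
  · subst h0
    refine ⟨0, 1, one_ne_zero, ?_⟩
    rw [inv_zero, zero_mul, map_zero]
  · have ha : a ≠ 0 := by
      intro ha
      rw [ha, map_zero] at h1
      rcases mul_eq_zero.1 h1 with h2 | h2
      · exact h0 h2
      · exact mm_ne_zero hb h2
    refine ⟨b, a, ha, ?_⟩
    rw [← h1, ← mul_assoc, inv_mul_cancel₀ h0, one_mul]

theorem exists_quo [Algebra.IsAlgebraic F N] {z : LaurentSeries N} (hz : z ∈ NN F N) :
    ∃ (F₁ : IntermediateField F N) (_ : FiniteDimensional F F₁), Quo F₁ z := by
  letI := lauAlg F N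
  unfold NN at hz
  induction hz using IntermediateField.adjoin_induction with
  | mem x hx =>
    obtain ⟨c, rfl⟩ := hx
    have hfin : FiniteDimensional F (IntermediateField.adjoin F {c}) :=
      IntermediateField.adjoin.finiteDimensional (Algebra.IsIntegral.isIntegral c)
    refine ⟨IntermediateField.adjoin F {c}, hfin,
      PowerSeries.C ⟨c, IntermediateField.mem_adjoin_simple_self F c⟩, 1, one_ne_zero, ?_⟩
    rw [map_one, mul_one, mm_apply, PowerSeries.map_C]
    rfl
  | algebraMap x =>
    obtain ⟨a, b, hb, rfl⟩ := IsFractionRing.div_surjective (A := PowerSeries F) x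
    refine ⟨⊥, inferInstance, PowerSeries.map (algebraMap F _) a,
      PowerSeries.map (algebraMap F _) b, ?_, ?_⟩
    · intro h0
      exact nonZeroDivisors.ne_zero hb (map_C_injective F _ (h0.trans (map_zero _).symm))
    · have h1 : ∀ c : PowerSeries F, mm F N ⊥ (PowerSeries.map (algebraMap F _) c)
          = lau F N (algebraMap (PowerSeries F) (LaurentSeries F) c) := by
        intro c
        rw [lau_algebraMap, mm_apply]
        congr 1
      have h2 : lau F N (algebraMap (PowerSeries F) (LaurentSeries F) b) ≠ 0 := by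
        rw [Ne, map_eq_zero, IsFractionRing.to_map_eq_zero_iff]
        exact nonZeroDivisors.ne_zero hb
      rw [h1, h1]
      show lau F N (algebraMap (PowerSeries F) (LaurentSeries F) a /
        algebraMap (PowerSeries F) (LaurentSeries F) b) * _ = _
      rw [map_div₀, div_mul_cancel₀ _ h2]
  | add x y hx hy ihx ihy =>
    obtain ⟨F₁, h1, h2⟩ := ihx
    obtain ⟨F₂, h3, h4⟩ := ihy
    exact ⟨F₁ ⊔ F₂, IntermediateField.finiteDimensional_sup F₁ F₂,
      (h2.mono le_sup_left).add (h4.mono le_sup_right)⟩
  | inv x hx ih =>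
    obtain ⟨F₁, h1, h2⟩ := ih
    exact ⟨F₁, h1, h2.inv⟩
  | mul x y hx hy ihx ihy =>
    obtain ⟨F₁, h1, h2⟩ := ihx
    obtain ⟨F₂, h3, h4⟩ := ihy
    exact ⟨F₁ ⊔ F₂, IntermediateField.finiteDimensional_sup F₁ F₂,
      (h2.mono le_sup_left).mul (h4.mono le_sup_right)⟩

/-- common denominators -/
theorem exists_den [Algebra.IsAlgebraic F N] (S : Finset (LaurentSeries N))
    (hS : ∀ z ∈ S, z ∈ NN F N) :
    ∃ (F₁ : IntermediateField F N) (_ : FiniteDimensional F F₁) (b : PowerSeries F₁), b ≠ 0 ∧
      ∀ z ∈ S, ∃ a : PowerSeries F₁, z * mm F N F₁ b = mm F N F₁ a := by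
  classical
  induction S using Finset.induction_on with
  | empty => exact ⟨⊥, inferInstance, 1, one_ne_zero, fun z hz => absurd hz (Finset.notMem_empty z)⟩
  | insert z₀ S hz₀ ih =>
    obtain ⟨F₁, hfin, b, hb, h1⟩ := ih fun z hz => hS z (Finset.mem_insert_of_mem hz)
    obtain ⟨F₂, hfin2, h2⟩ := exists_quo (hS z₀ (Finset.mem_insert_self z₀ S))
    obtain ⟨a₀, b₀, hb₀, h3⟩ := h2.mono (le_sup_right : F₂ ≤ F₁ ⊔ F₂)
    let ic : PowerSeries F₁ →+* PowerSeries (F₁ ⊔ F₂ : IntermediateField F N) :=
      PowerSeries.map (IntermediateField.inclusion (le_sup_left : F₁ ≤ F₁ ⊔ F₂) : F₁ →+* _)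
    have hic : ∀ c, mm F N (F₁ ⊔ F₂) (ic c) = mm F N F₁ c := fun c => mm_incl F N le_sup_left c
    refine ⟨F₁ ⊔ F₂, IntermediateField.finiteDimensional_sup F₁ F₂, ic b * b₀, ?_, ?_⟩
    · refine mul_ne_zero (fun h0 => mm_ne_zero hb ?_) hb₀
      rw [← hic, h0, map_zero]
    · intro z hz
      rcases Finset.mem_insert.1 hz with h | h
      · subst h
        refine ⟨a₀ * ic b, ?_⟩
        rw [map_mul, map_mul, ← h3]
        ring
      · obtain ⟨a, ha⟩ := h1 z h
        refine ⟨ic a * b₀, ?_⟩
        rw [map_mul, map_mul, hic, hic, ← ha]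
        ring

/-- power series over finite extensions -/
theorem mm_mem (F₂ : IntermediateField F N) [FiniteDimensional F F₂] (s : PowerSeries F₂) :
    mm F N F₂ s ∈ NN F N := by
  letI := lauAlg F N
  let ω := Module.finBasis F F₂
  let c : Fin (Module.finrank F F₂) → PowerSeries F := fun k =>
    PowerSeries.mk fun n => ω.repr (PowerSeries.coeff n s) k
  have h1 : PowerSeries.map (algebraMap F₂ N) s
      = ∑ k, PowerSeries.C (algebraMap F₂ N (ω k)) * PowerSeries.map (algebraMap F N) (c k) := by
    apply PowerSeries.ext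
    intro n
    rw [map_sum, PowerSeries.coeff_map]
    conv_lhs => rw [← ω.sum_repr (PowerSeries.coeff n s), map_sum]
    refine Finset.sum_congr rfl fun k _ => ?_
    rw [PowerSeries.coeff_C_mul, PowerSeries.coeff_map, PowerSeries.coeff_mk, Algebra.smul_def,
      map_mul, ← IsScalarTower.algebraMap_apply, mul_comm]
  rw [mm_apply, h1, map_sum]
  refine sum_mem fun k _ => ?_
  rw [map_mul]
  refine mul_mem ?_ ?_
  · exact IntermediateField.subset_adjoin _ _ ⟨_, rfl⟩
  · rw [← lau_algebraMap]
    exact (NN F N).algebraMap_mem _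

end lau

end Pool.Agent.Run7.h652.ZC
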