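import Mathlib
import Pool.Agent.Run7.h652.ZC.Laur

/-!
The theorem of Tsen and Lang at a prime `ℓ` for unions of fields of Laurent series.
-/

set_option autoImplicit false
set_option linter.style.haveILetI false

namespace Pool.Agent.Run7.h652.ZC

open MvPolynomial nonZeroDivisors
open Pool.Agent.Q49.TL (Tsen)

theorem tsen_NN {φ : ℕ → ℕ} (F N : Type) [Field F] [Finite F] [Field N] [Algebra F N]
    [Algebra.IsAlgebraic F N] (h : Tsen φ N) :
    Tsen (fun d => d * φ d) (NN F N) := by
  classical
  letI := lauAlg F N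
  intro ι κ _ _ w e f hw he hf hlt
  let S : Finset (LaurentSeries N) := Finset.univ.biUnion fun j =>
    (f j).support.image fun s => (((f j).coeff s : NN F N) : LaurentSeries N)
  obtain ⟨F₁, hfin, b, hb, hS⟩ := exists_den (F := F) S (by
    intro z hz
    obtain ⟨j, -, hj⟩ := Finset.mem_biUnion.1 hz
    obtain ⟨s, -, rfl⟩ := Finset.mem_image.1 hj
    exact ((f j).coeff s).2)
  have hex : ∀ (j : κ) (s : ι →₀ ℕ), ∃ a : PowerSeries F₁,
      (((f j).coeff s : NN F N) : LaurentSeries N) * mm F N F₁ b = mm F N F₁ a := by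
    intro j s
    by_cases hs : s ∈ (f j).support
    · exact hS _ (Finset.mem_biUnion.2 ⟨j, Finset.mem_univ j, Finset.mem_image.2 ⟨s, hs, rfl⟩⟩)
    · refine ⟨0, ?_⟩
      rw [notMem_support_iff.1 hs, map_zero]
      exact zero_mul _
  choose a ha using hex
  let g : κ → MvPolynomial ι (PowerSeries F₁) := fun j => ∑ s ∈ (f j).support, monomial s (a j s)
  have hg : ∀ j, IsWeightedHomogeneous w (g j) (e j) := by
    intro j
    refine IsWeightedHomogeneous.sum _ _ _ fun s hs => ?_
    exact isWeightedHomogeneous_monomial w s (a j s) (hf j (mem_support_iff.1 hs))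
  haveI : Finite F₁ := Module.finite_of_finite F
  haveI : Algebra.IsAlgebraic F₁ N := Algebra.IsAlgebraic.tower_top (K := F) F₁
  obtain ⟨F', hfin', x, hx, hxg⟩ := exact_sol F₁ N h ι κ w e g hw he hg hlt
  let F'' : IntermediateField F N := F'.restrictScalars F
  haveI : FiniteDimensional F F'' := FiniteDimensional.trans F F₁ F'
  let M : PowerSeries F' →+* LaurentSeries N :=
    (algebraMap (PowerSeries N) (LaurentSeries N)).comp (PowerSeries.map (algebraMap F' N))
  have hM : ∀ s : PowerSeries F', M s ∈ NN F N := fun s => mm_mem F'' s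
  have hMinj : Function.Injective M := mm_injective F N F''
  refine ⟨fun i => ⟨M (x i), hM (x i)⟩, ?_, fun j => ?_⟩
  · intro h0
    apply hx
    funext i
    apply hMinj
    have h1 := congrArg Subtype.val (congrFun h0 i)
    rw [Pi.zero_apply, map_zero]
    exact h1
  · apply Subtype.ext
    have h1 : ((eval (fun i => (⟨M (x i), hM (x i)⟩ : NN F N)) (f j) : NN F N) : LaurentSeries N)
        = ∑ s ∈ (f j).support, (((f j).coeff s : NN F N) : LaurentSeries N)
          * ∏ i ∈ s.support, M (x i) ^ s i := by
      rw [← eval₂_id, eval₂_eq]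
      show algebraMap (NN F N) (LaurentSeries N) _ = _
      rw [map_sum]
      refine Finset.sum_congr rfl fun s _ => ?_
      rw [map_mul, map_prod]
      congr 1
    have h2 : ((eval (fun i => (⟨M (x i), hM (x i)⟩ : NN F N)) (f j) : NN F N) : LaurentSeries N)
        * mm F N F₁ b = 0 := by
      have h3 := congrArg M (hxg j)
      rw [map_zero, aeval_def, hom_eval₂] at h3
      have h4 : M.comp (algebraMap (PowerSeries F₁) (PowerSeries F')) = mm F N F₁ := by
        rfl
      rw [h4, eval₂_sum] at h3
      rw [h1, Finset.sum_mul, ← h3]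
      refine Finset.sum_congr rfl fun s _ => ?_
      rw [eval₂_monomial, ← ha j s, Finsupp.prod]
      ring
    exact (mul_eq_zero.1 h2).resolve_right (mm_ne_zero hb)

end Pool.Agent.Run7.h652.ZC
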