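import Mathlib
import Pool.Agent.Run7.h652.ZC.TsenL
import Pool.Agent.Run7.h652.ZC.Curve

/-!
The theorem of Tsen and Lang at a prime `ℓ` for local fields of positive characteristic.
-/

set_option autoImplicit false
set_option linter.style.haveILetI false

namespace Pool.Agent.Run7.h652.ZC

open Polynomial nonZeroDivisors
open Pool.Agent.Q49.TL (Tsen)
open Pool.Agent.R614.PT (PrimeTo exists_max exists_root exists_finite_le)
open Pool.Agent.Run7.h652.LP (LC)

theorem gd_of_tsen {ℓ : ℕ} {C Ω : Type} [Field C] [Field Ω] [Algebra C Ω]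
    [Algebra.IsAlgebraic C Ω] (M : IntermediateField C Ω) (hM : PrimeTo ℓ M)
    (hT : Tsen (fun d => d * ℓ ^ d.factorization ℓ) M) : Gd ℓ C := by
  classical
  intro ι κ _ _ w e f hw he hf hlt
  obtain ⟨x, hx, hxf⟩ := hT ι κ w e (fun j => MvPolynomial.map (algebraMap C M) (f j)) hw he
    (fun j => Run7.h652.LP.wh_map (algebraMap C M) (hf j)) hlt
  let S : Set Ω := Set.range fun i => (x i : Ω)
  have hS : S.Finite := Set.finite_range _
  have hSM : S ⊆ M := by
    rintro _ ⟨i, rfl⟩
    exact (x i).2
  obtain ⟨L, hLM, hfin, hSL⟩ := exists_finite_le S hS hSM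
  refine ⟨L, inferInstance, inferInstance, hfin, hM L hLM hfin, fun i => ⟨x i, hSL ⟨i, rfl⟩⟩,
    ?_, fun j => ?_⟩
  · intro h0
    apply hx
    funext i
    apply Subtype.ext
    exact congr_arg (fun z : L => (z : Ω)) (congr_fun h0 i)
  · have h1 := hxf j
    rw [MvPolynomial.eval_map, ← MvPolynomial.aeval_def] at h1
    apply Subtype.ext
    have h2 : ((MvPolynomial.aeval x (f j) : M) : Ω) = 0 := by
      rw [h1]; rfl
    have h3 : ((MvPolynomial.aeval x (f j) : M) : Ω)
        = MvPolynomial.aeval (fun i => (x i : Ω)) (f j) :=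
      (MvPolynomial.aeval_algebraMap_apply Ω x (f j)).symm
    have h4 : ((MvPolynomial.aeval (fun i => (⟨x i, hSL ⟨i, rfl⟩⟩ : L)) (f j) : L) : Ω)
        = MvPolynomial.aeval (fun i => (x i : Ω)) (f j) :=
      (MvPolynomial.aeval_algebraMap_apply Ω (fun i => (⟨x i, hSL ⟨i, rfl⟩⟩ : L)) (f j)).symm
    rw [h4, ← h3, h2]
    rfl

/-- the conjugates over a finite field -/
theorem mem_of_root {F Ω : Type} [Field F] [Finite F] [Field Ω] [Algebra F Ω] (M : Subfield Ω)
    (hFM : ∀ c : F, algebraMap F Ω c ∈ M) {P : F[X]} (hP : Irreducible P) {α β : Ω}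
    (hα : aeval α P = 0) (hβ : aeval β P = 0) (hβM : β ∈ M) : α ∈ M := by
  have hint : IsIntegral F β := (isAlgebraic_iff_isIntegral).1 ⟨P, hP.ne_zero, hβ⟩
  let E := IntermediateField.adjoin F {β}
  have hfd : FiniteDimensional F E := IntermediateField.adjoin.finiteDimensional hint
  have hfin : Finite E := Module.finite_of_finite F
  have hgal : IsGalois F E := inferInstance
  let b : E := ⟨β, IntermediateField.mem_adjoin_simple_self F β⟩
  have h1 : aeval b P = 0 := by
    apply (algebraMap E Ω).injective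
    rw [map_zero, ← hβ, ← aeval_algebraMap_apply]
    rfl
  have h2 : Splits ((minpoly F b).map (algebraMap F E)) := Normal.splits hgal.to_normal b
  have h3 : (minpoly F b) ∣ P := minpoly.dvd F b h1
  have h4 : P ∣ minpoly F b :=
    (hP.dvd_iff.1 h3).resolve_left (minpoly.irreducible (Algebra.IsIntegral.isIntegral b)).not_isUnit
      |>.dvd
  have h5 : aeval α (minpoly F b) = 0 := by
    obtain ⟨Q, hQ⟩ := h4
    rw [hQ, map_mul, hα, zero_mul]
  have h6 : α ∈ (algebraMap E Ω).range := by
    refine h2.mem_range_of_isRoot ?_ ?_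
    · exact (Polynomial.map_ne_zero (minpoly.ne_zero (Algebra.IsIntegral.isIntegral b)))
    · rw [Polynomial.map_map, ← IsScalarTower.algebraMap_eq, IsRoot.def, eval_map_algebraMap]
      exact h5
  obtain ⟨a, rfl⟩ := h6
  have h7 : E.toSubfield ≤ M := by
    refine IntermediateField.adjoin_le_subfield F {β} ?_ ?_
    · rintro _ ⟨c, rfl⟩
      exact hFM c
    · rintro _ rfl
      exact hβM
  exact h7 a.2

/-- **The theorem of Tsen and Lang at the prime `ℓ`** for local fields of positive
characteristic. -/
theorem gd_loc {ℓ : ℕ} (hℓ : ℓ.Prime) {F L : Type} [Field F] [Finite F] [Field L]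
    [Algebra (LaurentSeries F) L] [Algebra.IsAlgebraic (LaurentSeries F) L] : Gd ℓ L := by
  classical
  obtain ⟨N, hN1, hN2⟩ := Run7.h652.LP.exists_closure F hℓ
  have hTN := Run7.h652.LP.tsen_zero hℓ F N hN2
  letI := lauAlg F N
  have hTNN : Tsen (fun d => d * ℓ ^ d.factorization ℓ) (NN F N) := tsen_NN F N hTN
  -- the field `NN` is algebraic
  let K := LaurentSeries F
  let cF : F →+* K := (algebraMap (PowerSeries F) K).comp PowerSeries.C
  have hcF : ∀ c : F, lau F N (cF c) = cst N (algebraMap F N c) := by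
    intro c
    show lau F N (algebraMap (PowerSeries F) (LaurentSeries F) (PowerSeries.C c)) = _
    rw [lau_algebraMap, PowerSeries.map_C]
    rfl
  have halg : Algebra.IsAlgebraic K (NN F N) := by
    refine IntermediateField.isAlgebraic_adjoin ?_
    rintro _ ⟨c, rfl⟩
    obtain ⟨P, hP0, hP⟩ := Algebra.IsAlgebraic.isAlgebraic (R := F) c
    refine (isAlgebraic_iff_isIntegral).1 ⟨P.map cF, ?_, ?_⟩
    · rwa [Ne, Polynomial.map_eq_zero]
    · rw [aeval_def, eval₂_map]
      have h1 : (algebraMap K (LaurentSeries N)).comp cF = (cst N).comp (algebraMap F N) := by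
        ext1 c
        exact hcF c
      rw [h1, ← hom_eval₂, ← aeval_def, hP, map_zero]
  let Ω := AlgebraicClosure (NN F N)
  haveI : Algebra.IsAlgebraic K Ω := Algebra.IsAlgebraic.trans K (NN F N) Ω
  let τ : L →ₐ[K] Ω := IsAlgClosed.lift
  letI : Algebra L Ω := τ.toRingHom.toAlgebra
  haveI : IsScalarTower K L Ω := IsScalarTower.of_algebraMap_eq fun x => (τ.commutes x).symm
  haveI : Algebra.IsAlgebraic L Ω := Algebra.IsAlgebraic.tower_top (K := K) L
  obtain ⟨M, hM1, hM2⟩ := exists_max (C := L) (Ω := Ω) hℓ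
  have hKM : ∀ c : K, algebraMap K Ω c ∈ M := by
    intro c
    rw [IsScalarTower.algebraMap_apply K L Ω]
    exact M.algebraMap_mem _
  -- the constants
  let iF : F →+* Ω := (algebraMap K Ω).comp cF
  have hcM : ∀ c : N, algebraMap (NN F N) Ω ⟨cst N c, IntermediateField.subset_adjoin _ _ ⟨c, rfl⟩⟩
      ∈ M := by
    intro c
    letI : Algebra F Ω := iF.toAlgebra
    have hint : IsIntegral F c := Algebra.IsIntegral.isIntegral c
    have hirr := minpoly.irreducible hint
    have hdeg : ¬ ℓ ∣ (minpoly F c).natDegree := by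
      have hint' : IsIntegral F (c : AlgebraicClosure F) := Algebra.IsIntegral.isIntegral _
      have h1 : minpoly F c = minpoly F (c : AlgebraicClosure F) :=
        (minpoly.algHom_eq N.val N.val.injective c).symm
      rw [h1, ← IntermediateField.adjoin.finrank hint']
      refine hN1 _ ?_ (IntermediateField.adjoin.finiteDimensional hint')
      rw [IntermediateField.adjoin_le_iff]
      rintro _ rfl
      exact c.2
    let jM : F →+* M := iF.codRestrict M.toSubfield.toSubring fun c => hKM _
    obtain ⟨β, hβ⟩ := exists_root hM2 ((minpoly F c).map jM) (by rwa [natDegree_map])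
    have hβ' : aeval (β : Ω) (minpoly F c) = 0 := by
      rw [IsRoot.def, eval_map] at hβ
      have h1 := congrArg (algebraMap M Ω) hβ
      rw [map_zero, hom_eval₂] at h1
      exact h1
    refine mem_of_root (F := F) (Ω := Ω) M.toSubfield (fun c : F => hKM (cF c)) hirr ?_ hβ' β.2
    -- the image of `c` is a root
    have h1 : aeval c (minpoly F c) = 0 := minpoly.aeval F c
    have h2 : Function.Injective (cst N) := (cst N).injective
    let j : N →+* Ω := (algebraMap (NN F N) Ω).comp
      ((cst N).codRestrict (NN F N).toSubfield.toSubring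
        fun c => IntermediateField.subset_adjoin _ _ ⟨c, rfl⟩)
    have h3 : j.comp (algebraMap F N) = algebraMap F Ω := by
      ext1 c
      show algebraMap (NN F N) Ω ⟨cst N (algebraMap F N c), _⟩ = algebraMap K Ω (cF c)
      rw [IsScalarTower.algebraMap_apply K (NN F N) Ω]
      congr 1
      apply Subtype.ext
      exact (hcF c).symm
    have h4 := congrArg j h1
    rw [map_zero, aeval_def, hom_eval₂, h3] at h4
    exact h4
  have hNM : ∀ z : NN F N, algebraMap (NN F N) Ω z ∈ M := by
    rintro ⟨z, hz⟩
    have hz' : z ∈ IntermediateField.adjoin K (Set.range (cst N)) := hz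
    induction hz' using IntermediateField.adjoin_induction with
    | mem x hx =>
      obtain ⟨c, rfl⟩ := hx
      exact hcM c
    | algebraMap x =>
      have h1 := hKM x
      rw [IsScalarTower.algebraMap_apply K (NN F N) Ω] at h1
      exact h1
    | add x y hx hy ihx ihy =>
      have h1 := add_mem (ihx hx) (ihy hy)
      rw [← map_add] at h1
      exact h1
    | inv x hx ih =>
      have h1 := inv_mem (ih hx)
      rw [← map_inv₀] at h1
      exact h1
    | mul x y hx hy ihx ihy =>
      have h1 := mul_mem (ihx hx) (ihy hy)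
      rw [← map_mul] at h1
      exact h1
  letI : Algebra (NN F N) M :=
    ((algebraMap (NN F N) Ω).codRestrict M.toSubfield.toSubring hNM).toAlgebra
  haveI : IsScalarTower (NN F N) M Ω := IsScalarTower.of_algebraMap_eq fun x => rfl
  haveI : Algebra.IsAlgebraic (NN F N) M :=
    Algebra.IsAlgebraic.tower_bot (NN F N) M Ω
  exact gd_of_tsen M hM1 (Run7.h652.LP.tsen_alg (NN F N) M hTNN)

end Pool.Agent.Run7.h652.ZC
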