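import Mathlib

/-!
# Zero-cycles on projective varieties

Let `K` be a field, `Ω` an algebraic closure of `K`, `f` a family of homogeneous polynomials over `K`
and `V` the projective variety `f = 0`. The closed points of `V` are the orbits of the group of the
automorphisms of `Ω` over `K` on the points of `V` over `Ω`.
-/

set_option autoImplicit false

namespace Pool.Agent.Run7.h652.ZC

open MvPolynomial IntermediateField

variable {K Ω ι κ : Type} [Field K] [Field Ω] [Algebra K Ω]

/-- The points of the projective variety `f = 0` over `Ω`, given by homogeneous coordinates. -/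
def Pt (Ω : Type) [Field Ω] [Algebra K Ω] (f : κ → MvPolynomial ι K) : Type :=
  {x : ι → Ω // x ≠ 0 ∧ ∀ j, aeval x (f j) = 0}

/-- `x` and `y` give the same closed point: `y` is proportional to a conjugate of `x` over `K`. -/
def Conj (f : κ → MvPolynomial ι K) (x y : Pt Ω f) : Prop :=
  ∃ (σ : Ω ≃ₐ[K] Ω) (c : Ω), c ≠ 0 ∧ ∀ i, y.1 i = c * σ (x.1 i)

theorem conj_equivalence (f : κ → MvPolynomial ι K) : Equivalence (Conj (Ω := Ω) f) where
  refl x := ⟨AlgEquiv.refl, 1, one_ne_zero, fun i => by rw [one_mul]; rfl⟩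
  symm := by
    rintro x y ⟨σ, c, hc, h⟩
    refine ⟨σ.symm, σ.symm c⁻¹, ?_, fun i => ?_⟩
    · rw [Ne, EmbeddingLike.map_eq_zero_iff]
      exact inv_ne_zero hc
    · rw [h i, ← map_mul, ← mul_assoc, inv_mul_cancel₀ hc, one_mul, AlgEquiv.symm_apply_apply]
  trans := by
    rintro x y z ⟨σ, c, hc, h⟩ ⟨τ, d, hd, h'⟩
    refine ⟨σ.trans τ, d * τ c, mul_ne_zero hd ?_, fun i => ?_⟩
    · rw [Ne, EmbeddingLike.map_eq_zero_iff]
      exact hc
    · rw [h' i, h i, map_mul, mul_assoc]
      rfl

/-- The equivalence relation `Conj`. -/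
def conjSetoid (Ω : Type) [Field Ω] [Algebra K Ω] (f : κ → MvPolynomial ι K) : Setoid (Pt Ω f) :=
  ⟨Conj f, conj_equivalence f⟩

/-- The closed points of the projective variety `f = 0`. -/
def ClosedPt (Ω : Type) [Field Ω] [Algebra K Ω] (f : κ → MvPolynomial ι K) : Type :=
  Quotient (conjSetoid Ω f)

/-- The residue field of the closed point given by `x`: the field generated by the quotients of the
coordinates (`x i / x j` is `0` if `x j = 0`). -/
def resField (K : Type) {Ω ι : Type} [Field K] [Field Ω] [Algebra K Ω] (x : ι → Ω) :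
    IntermediateField K Ω :=
  adjoin K {a | ∃ i j, a = x i / x j}

theorem resField_conj {x y : ι → Ω} (σ : Ω ≃ₐ[K] Ω) (c : Ω) (hc : c ≠ 0)
    (h : ∀ i, y i = c * σ (x i)) : resField K y = (resField K x).map (σ : Ω →ₐ[K] Ω) := by
  unfold resField
  rw [adjoin_map]
  congr 1
  ext a
  constructor
  · rintro ⟨i, j, rfl⟩
    refine ⟨_, ⟨i, j, rfl⟩, ?_⟩
    rw [h i, h j, mul_div_mul_left _ _ hc]
    exact map_div₀ σ _ _
  · rintro ⟨_, ⟨i, j, rfl⟩, rfl⟩
    refine ⟨i, j, ?_⟩
    rw [h i, h j, mul_div_mul_left _ _ hc]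
    exact map_div₀ σ _ _

theorem finrank_map (σ : Ω →ₐ[K] Ω) (L : IntermediateField K Ω) :
    Module.finrank K (L.map σ) = Module.finrank K L :=
  (LinearEquiv.finrank_eq (L.equivMap σ).toLinearEquiv).symm

theorem finrank_resField_conj {x y : ι → Ω} (σ : Ω ≃ₐ[K] Ω) (c : Ω) (hc : c ≠ 0)
    (h : ∀ i, y i = c * σ (x i)) :
    Module.finrank K (resField K y) = Module.finrank K (resField K x) := by
  rw [resField_conj σ c hc h, finrank_map]

/-- The degree of a closed point: the degree of its residue field over `K`. -/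
noncomputable def ClosedPt.deg {f : κ → MvPolynomial ι K} : ClosedPt Ω f → ℕ :=
  Quotient.lift (fun x => Module.finrank K (resField K x.1)) fun _ _ h => by
    obtain ⟨σ, c, hc, h⟩ := h
    exact (finrank_resField_conj σ c hc h).symm

/-- The group of the zero-cycles on the projective variety `f = 0`: the free abelian group on the closed
points. -/
abbrev Cyc (Ω : Type) [Field Ω] [Algebra K Ω] (f : κ → MvPolynomial ι K) : Type :=
  ClosedPt Ω f →₀ ℤ

/-- The degree of a zero-cycle. -/
noncomputable def deg {f : κ → MvPolynomial ι K} : Cyc Ω f →+ ℤ :=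
  Finsupp.liftAddHom fun P => AddMonoidHom.mulRight (P.deg : ℤ)

/-- The push-forward of the point `x` of `V` over the finite extension `L` of `K`: it is `[L : K(x)]`
times the closed point of `x`, where `K(x)` is the residue field. -/
noncomputable def push {f : κ → MvPolynomial ι K} (L : IntermediateField K Ω) (x : Pt Ω f) :
    Cyc Ω f :=
  Finsupp.single (Quotient.mk (conjSetoid Ω f) x)
    ((Module.finrank K L / Module.finrank K (resField K x.1) : ℕ) : ℤ)

/-- Elementary rational equivalences: `γ` gives a rational curve, a morphism `φ` from the projective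
line over the finite extension `L` of `K` to `V`, with `φ(0) = x` and `φ(∞) = y`, and `z` is the
push-forward of the divisor `0 - ∞`. -/
def Elementary {f : κ → MvPolynomial ι K} (z : Cyc Ω f) : Prop :=
  ∃ (L : IntermediateField K Ω) (γ : ι → Polynomial L) (r : ℕ) (x y : Pt Ω f),
    FiniteDimensional K L ∧ (∀ j, aeval γ (f j) = 0) ∧ (∀ i, (γ i).natDegree ≤ r) ∧
    (∀ i, x.1 i = (γ i).coeff 0) ∧ (∀ i, y.1 i = (γ i).coeff r) ∧ z = push L x - push L y

/-- The subgroup generated by the elementary rational equivalences. The zero-cycles in it are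
rationally equivalent to zero. -/
noncomputable def RatEq (Ω : Type) [Field Ω] [Algebra K Ω] (f : κ → MvPolynomial ι K) : AddSubgroup (Cyc Ω f) :=
  AddSubgroup.closure {z | Elementary z}

end Pool.Agent.Run7.h652.ZC
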