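import Mathlib
import Pool.Agent.Run7.h652.ZC.Cycle

/-!
Push-forwards of points over finite extensions.
-/

set_option autoImplicit false

namespace Pool.Agent.Run7.h652.ZC

open MvPolynomial IntermediateField

variable {K Ω ι κ : Type} [Field K] [Field Ω] [Algebra K Ω] {f : κ → MvPolynomial ι K}

/-- the class of a point -/
def cl (x : Pt Ω f) : ClosedPt Ω f := Quotient.mk (conjSetoid Ω f) x

theorem cl_eq {x y : Pt Ω f} (σ : Ω ≃ₐ[K] Ω) (c : Ω) (hc : c ≠ 0)
    (h : ∀ i, y.1 i = c * σ (x.1 i)) : cl x = cl y :=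
  Quotient.sound ⟨σ, c, hc, h⟩

theorem push_def (L : IntermediateField K Ω) (x : Pt Ω f) :
    push L x = Finsupp.single (cl x)
      ((Module.finrank K L / Module.finrank K (resField K x.1) : ℕ) : ℤ) := rfl

theorem finrank_dvd {E L : IntermediateField K Ω} (h : E ≤ L) :
    Module.finrank K E ∣ Module.finrank K L := by
  let a : Algebra E L := (inclusion h).toAlgebra
  have : IsScalarTower K E L := IsScalarTower.of_algebraMap_eq (fun _ => rfl)
  exact Dvd.intro _ (Module.finrank_mul_finrank K E L)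

theorem resField_le {L : IntermediateField K Ω} {x : ι → Ω} (h : ∀ i, x i ∈ L) :
    resField K x ≤ L := by
  unfold resField
  rw [adjoin_le_iff]
  rintro _ ⟨i, j, rfl⟩
  exact div_mem (h i) (h j)

theorem push_mul {L L' : IntermediateField K Ω} {x : Pt Ω f}
    (hx : ∀ i, x.1 i ∈ L) {t : ℕ} (ht : Module.finrank K L' = Module.finrank K L * t) :
    push L' x = t • push L x := by
  rw [push_def, push_def, Finsupp.smul_single, ht]
  congr 1
  obtain ⟨s, hs⟩ := finrank_dvd (resField_le hx)
  rw [hs, nsmul_eq_mul]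
  rcases Nat.eq_zero_or_pos (Module.finrank K (resField K x.1)) with h0 | h0
  · rw [h0]; simp
  · rw [mul_assoc, Nat.mul_div_cancel_left _ h0, Nat.mul_div_cancel_left _ h0]
    push_cast
    ring

theorem push_conj (σ : Ω ≃ₐ[K] Ω) (L : IntermediateField K Ω) {x y : Pt Ω f}
    (h : ∀ i, y.1 i = σ (x.1 i)) : push (L.map (σ : Ω →ₐ[K] Ω)) y = push L x := by
  rw [push_def, push_def, finrank_map,
    finrank_resField_conj σ 1 one_ne_zero (fun i => by rw [h i, one_mul]),
    cl_eq (x := x) (y := y) σ 1 one_ne_zero (fun i => by rw [h i, one_mul])]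

theorem deg_single (P : ClosedPt Ω f) (n : ℤ) : deg (Finsupp.single P n) = n * P.deg := by
  unfold deg
  rw [Finsupp.liftAddHom_apply_single]
  rfl

theorem deg_push {L : IntermediateField K Ω} {x : Pt Ω f} (hx : ∀ i, x.1 i ∈ L) :
    deg (push L x) = Module.finrank K L := by
  rw [push_def, deg_single]
  obtain ⟨s, hs⟩ := finrank_dvd (resField_le hx)
  have h1 : (cl x).deg = Module.finrank K (resField K x.1) := rfl
  rw [h1, hs]
  rcases Nat.eq_zero_or_pos (Module.finrank K (resField K x.1)) with h0 | h0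
  · rw [h0]; simp
  · rw [Nat.mul_div_cancel_left _ h0]
    push_cast
    ring

variable [Finite ι] [Algebra.IsAlgebraic K Ω]

instance finite_resField (x : ι → Ω) : FiniteDimensional K (resField K x) := by
  unfold resField
  have : Finite {a | ∃ i j, a = x i / x j} := by
    have h1 : {a | ∃ i j, a = x i / x j} = Set.range fun p : ι × ι => x p.1 / x p.2 := by
      ext a
      constructor
      · rintro ⟨i, j, h⟩; exact ⟨(i, j), h.symm⟩
      · rintro ⟨p, h⟩; exact ⟨p.1, p.2, h.symm⟩
    rw [h1]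
    exact (Set.finite_range _).to_subtype
  exact finiteDimensional_adjoin fun x _ => Algebra.IsIntegral.isIntegral x

/-- Every closed point is the push-forward of a point over its residue field. -/
theorem exists_push (hf : ∀ j, ∃ d, (f j).IsHomogeneous d) (P : ClosedPt Ω f) :
    ∃ (L : IntermediateField K Ω) (x : Pt Ω f), FiniteDimensional K L ∧ (∀ i, x.1 i ∈ L) ∧
      Finsupp.single P 1 = push L x := by
  obtain ⟨y, rfl⟩ := Quotient.exists_rep P
  obtain ⟨i₀, hi₀⟩ : ∃ i, y.1 i ≠ 0 := by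
    by_contra h
    push Not at h
    exact y.2.1 (funext h)
  have hx : ∀ j, aeval (fun i => (y.1 i₀)⁻¹ * y.1 i) (f j) = 0 := by
    intro j
    obtain ⟨d, hd⟩ := hf j
    have h1 := y.2.2 j
    rw [aeval_def, eval₂_eq] at h1 ⊢
    have h2 : ∀ s ∈ (f j).support, algebraMap K Ω ((f j).coeff s) *
        ∏ i ∈ s.support, ((y.1 i₀)⁻¹ * y.1 i) ^ s i = (y.1 i₀)⁻¹ ^ d *
        (algebraMap K Ω ((f j).coeff s) * ∏ i ∈ s.support, y.1 i ^ s i) := by
      intro s hs
      have h3 := hd (mem_support_iff.1 hs)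
      rw [Finsupp.weight_apply] at h3
      simp only [Pi.one_apply, smul_eq_mul, mul_one] at h3
      have h4 : ∏ i ∈ s.support, ((y.1 i₀)⁻¹ * y.1 i) ^ s i
          = (y.1 i₀)⁻¹ ^ d * ∏ i ∈ s.support, y.1 i ^ s i := by
        rw [← h3, Finsupp.sum, ← Finset.prod_pow_eq_pow_sum, ← Finset.prod_mul_distrib]
        exact Finset.prod_congr rfl fun i _ => mul_pow _ _ _
      rw [h4]
      ring
    rw [Finset.sum_congr rfl h2, ← Finset.mul_sum, h1, mul_zero]
  let x : Pt Ω f := ⟨fun i => (y.1 i₀)⁻¹ * y.1 i, by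
    intro h
    have h1 := congr_fun h i₀
    simp only [Pi.zero_apply] at h1
    rw [inv_mul_cancel₀ hi₀] at h1
    exact one_ne_zero h1, hx⟩
  have hres : resField K x.1 = resField K y.1 := by
    have h1 := resField_conj (K := K) (x := y.1) (y := x.1) AlgEquiv.refl (y.1 i₀)⁻¹
      (inv_ne_zero hi₀) (fun i => rfl)
    rw [h1]
    exact IntermediateField.map_id _
  refine ⟨resField K x.1, x, finite_resField x.1, fun i => ?_, ?_⟩
  · rw [hres]
    refine subset_adjoin _ _ ⟨i, i₀, ?_⟩
    show (y.1 i₀)⁻¹ * y.1 i = _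
    rw [div_eq_mul_inv, mul_comm]
  · rw [push_def]
    have h1 : 0 < Module.finrank K (resField K x.1) := by
      have := finite_resField (K := K) x.1
      exact Module.finrank_pos
    rw [Nat.div_self h1, Nat.cast_one]
    congr 1
    exact cl_eq AlgEquiv.refl (y.1 i₀)⁻¹ (inv_ne_zero hi₀) fun i => rfl

end Pool.Agent.Run7.h652.ZC
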