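import Mathlib
import Pool.Agent.R614.PT.Max
import Pool.Agent.Run7.h652.ZC.Push

/-!
Extensions of degree prime to `ℓ`.
-/

set_option autoImplicit false

namespace Pool.Agent.Run7.h652.ZC

open Module Polynomial IntermediateField
open Pool.Agent.R614.PT (PrimeTo exists_max exists_root exists_gen exists_finite_le)

/-- An extension of degree prime to `ℓ` is contained in every field in which all the polynomials of
degree prime to `ℓ` have roots. -/
theorem embed {ℓ : ℕ} : ∀ (n : ℕ) (K L₀ M : Type) [Field K] [Field L₀] [Field M] [Algebra K L₀]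
    [Algebra K M] [FiniteDimensional K L₀],
    (∀ g : M[X], ¬ ℓ ∣ g.natDegree → ∃ y : M, g.IsRoot y) → finrank K L₀ = n → ¬ ℓ ∣ n →
    Nonempty (L₀ →ₐ[K] M) := by
  intro n
  induction n using Nat.strong_induction_on with
  | _ n ih =>
    intro K L₀ M _ _ _ _ _ _ hM hn hl
    by_cases hsurj : ∀ α : L₀, α ∈ (algebraMap K L₀).range
    · let e : K ≃ₐ[K] L₀ := AlgEquiv.ofBijective (Algebra.ofId K L₀)
        ⟨(algebraMap K L₀).injective, fun a => hsurj a⟩
      exact ⟨(Algebra.ofId K M).comp e.symm.toAlgHom⟩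
    · push Not at hsurj
      obtain ⟨α, hα⟩ := hsurj
      have hint : IsIntegral K α := Algebra.IsIntegral.isIntegral α
      have h1 : finrank K K⟮α⟯ = (minpoly K α).natDegree := adjoin.finrank hint
      have h2 : finrank K K⟮α⟯ * finrank K⟮α⟯ L₀ = n := by rw [finrank_mul_finrank, hn]
      have h3 : ¬ ℓ ∣ ((minpoly K α).map (algebraMap K M)).natDegree := by
        rw [natDegree_map, ← h1]
        exact fun h => hl (h.trans (Dvd.intro _ h2))
      obtain ⟨β, hβ⟩ := hM _ h3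
      have hβ' : aeval β (minpoly K α) = 0 := by
        rw [IsRoot.def, eval_map_algebraMap] at hβ
        exact hβ
      have hβ2 : β ∈ (minpoly K α).aroots M := by
        rw [mem_aroots]
        exact ⟨minpoly.ne_zero hint, hβ'⟩
      let g : K⟮α⟯ →ₐ[K] M := (algHomAdjoinIntegralEquiv K hint).symm ⟨β, hβ2⟩
      let a : Algebra K⟮α⟯ M := g.toRingHom.toAlgebra
      have ht : IsScalarTower K K⟮α⟯ M :=
        IsScalarTower.of_algebraMap_eq fun x => (g.commutes x).symm
      have h4 : 1 < finrank K K⟮α⟯ := by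
        have h5 : 0 < finrank K K⟮α⟯ := finrank_pos
        rcases Nat.lt_or_ge 1 (finrank K K⟮α⟯) with h | h
        · exact h
        · exfalso
          have h6 : finrank K K⟮α⟯ = 1 := by omega
          have h7 := finrank_adjoin_simple_eq_one_iff.1 h6
          apply hα
          rw [IntermediateField.mem_bot] at h7
          exact h7
      have h8 : 0 < finrank K⟮α⟯ L₀ := finrank_pos
      obtain ⟨h⟩ := ih (finrank K⟮α⟯ L₀) (by
        rw [← h2]
        exact lt_mul_of_one_lt_left h8 h4) K⟮α⟯ L₀ M hM rfl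
        (fun h => hl (h.trans (Dvd.intro_left _ h2)))
      exact ⟨h.restrictScalars K⟩

/-- A compositum of degree prime to `ℓ`. -/
theorem exists_comp {K Ω : Type} [Field K] [Field Ω] [Algebra K Ω] [IsAlgClosed Ω]
    [Algebra.IsAlgebraic K Ω] {ℓ : ℕ} (hℓ : ℓ.Prime) (L₀ L : IntermediateField K Ω)
    [FiniteDimensional K L₀] [FiniteDimensional K L] (h₀ : ¬ ℓ ∣ finrank K L₀) :
    ∃ (σ : Ω ≃ₐ[K] Ω) (F : IntermediateField K Ω) (t : ℕ), L ≤ F ∧ L₀.map (σ : Ω →ₐ[K] Ω) ≤ F ∧
      FiniteDimensional K F ∧ finrank K F = finrank K L * t ∧ ¬ ℓ ∣ t := by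
  classical
  have : Algebra.IsAlgebraic L Ω := Algebra.IsAlgebraic.tower_top (K := K) L
  obtain ⟨M, hM, hM2⟩ := exists_max (C := L) (Ω := Ω) hℓ
  obtain ⟨g⟩ := embed (finrank K L₀) K L₀ M (fun g hg => exists_root hM2 g hg) rfl h₀
  let g' : L₀ →ₐ[K] Ω := (M.val.restrictScalars K).comp g
  have : Algebra.IsAlgebraic L₀ Ω := Algebra.IsAlgebraic.tower_top (K := K) L₀
  obtain ⟨τ, hτ⟩ := IsAlgClosed.surjective_domRestrict_of_isAlgebraic (K := K) (L := L₀)
    (E := Ω) (M := Ω) g'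
  let σ : Ω ≃ₐ[K] Ω := AlgEquiv.ofBijective τ (Algebra.IsAlgebraic.algHom_bijective τ)
  have hσ : ∀ x : L₀, σ (x : Ω) = g' x := fun x => DFunLike.congr_fun hτ x
  obtain ⟨S, hS⟩ := exists_gen L₀ inferInstance
  have hSM : (σ '' (S : Set Ω)) ⊆ M := by
    rintro _ ⟨s, hs, rfl⟩
    have h1 : s ∈ L₀ := by rw [← hS]; exact subset_adjoin _ _ hs
    rw [hσ ⟨s, h1⟩]
    exact (g ⟨s, h1⟩).2
  obtain ⟨E, hEM, hfin, hSE⟩ := exists_finite_le (C := L) (σ '' (S : Set Ω))
    ((Finset.finite_toSet S).image _) hSM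
  refine ⟨σ, E.restrictScalars K, finrank L E, ?_, ?_, ?_, ?_, hM E hEM hfin⟩
  · intro x hx
    exact E.algebraMap_mem ⟨x, hx⟩
  · rw [← hS, adjoin_map, adjoin_le_iff]
    exact hSE
  · exact FiniteDimensional.trans K L E
  · exact (finrank_mul_finrank K L E).symm

end Pool.Agent.Run7.h652.ZC
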