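import Mathlib
import Pool.Agent.Run7.h652.ZC.Curve
import Pool.Agent.Run7.h652.ZC.Push

/-!
Two points over the same field.
-/

set_option autoImplicit false

namespace Pool.Agent.Run7.h652.ZC

open MvPolynomial IntermediateField Module

variable {K Ω ι κ : Type} [Field K] [Field Ω] [Algebra K Ω]

/-- the curve `x + ∑ z b t ^ (b + 1)` -/
noncomputable def crv {L' : Type} [Field L'] {m : ℕ} (x : ι → L') (z : Fin m → ι → L') (i : ι) :
    Polynomial L' :=
  Polynomial.C (x i) + ∑ b : Fin m, Polynomial.C (z b i) * Polynomial.X ^ (b.1 + 1)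

theorem crv_coeff_zero {L' : Type} [Field L'] {m : ℕ} (x : ι → L') (z : Fin m → ι → L') (i : ι) :
    (crv x z i).coeff 0 = x i := by
  unfold crv
  simp

theorem crv_coeff_succ {L' : Type} [Field L'] {m : ℕ} (x : ι → L') (z : Fin m → ι → L') (i : ι)
    (a : Fin m) : (crv x z i).coeff (a.1 + 1) = z a i := by
  classical
  unfold crv
  rw [Polynomial.coeff_add, Polynomial.coeff_C_succ, zero_add, Polynomial.finsetSum_coeff,
    Finset.sum_eq_single a]
  · rw [Polynomial.coeff_C_mul, Polynomial.coeff_X_pow, if_pos rfl, mul_one]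
  · intro b _ hb
    rw [Polynomial.coeff_C_mul, Polynomial.coeff_X_pow, if_neg, mul_zero]
    intro h
    apply hb
    apply Fin.ext
    omega
  · intro h
    exact absurd (Finset.mem_univ a) h

theorem crv_natDegree {L' : Type} [Field L'] {m : ℕ} (x : ι → L') (z : Fin m → ι → L') (i : ι)
    (a : Fin m) (ha : ∀ b, a < b → z b = 0) : (crv x z i).natDegree ≤ a.1 + 1 := by
  unfold crv
  refine (Polynomial.natDegree_add_le _ _).trans (max_le (by simp) ?_)
  refine Polynomial.natDegree_sum_le_of_forall_le _ _ fun b _ => ?_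
  rcases lt_or_ge a b with h | h
  · rw [ha b h]
    simp
  · refine (Polynomial.natDegree_C_mul_X_pow_le _ _).trans ?_
    have : b.1 ≤ a.1 := h
    omega

theorem exists_last {L' : Type} [Field L'] {m : ℕ} (z : Fin m → ι → L') (hz : z ≠ 0) :
    ∃ a : Fin m, z a ≠ 0 ∧ ∀ b, a < b → z b = 0 := by
  classical
  have h1 : (Finset.univ.filter fun b : Fin m => z b ≠ 0).Nonempty := by
    by_contra h
    rw [Finset.not_nonempty_iff_eq_empty] at h
    apply hz
    funext b
    by_contra hb
    have h2 : b ∈ Finset.univ.filter fun b : Fin m => z b ≠ 0 := by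
      rw [Finset.mem_filter]
      exact ⟨Finset.mem_univ b, hb⟩
    rw [h] at h2
    exact absurd h2 (Finset.notMem_empty b)
  refine ⟨Finset.max' _ h1, (Finset.mem_filter.1 (Finset.max'_mem _ h1)).2, fun b hb => ?_⟩
  by_contra h2
  have h3 : b ∈ Finset.univ.filter fun b : Fin m => z b ≠ 0 := by
    rw [Finset.mem_filter]
    exact ⟨Finset.mem_univ b, h2⟩
  exact absurd (Finset.le_max' _ b h3) (not_le.2 hb)

theorem two_points [IsAlgClosed Ω] [Algebra.IsAlgebraic K Ω] [Fintype ι] [Fintype κ] {ℓ : ℕ}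
    {f : κ → MvPolynomial ι K} {d : κ → ℕ} (hf : ∀ j, (f j).IsHomogeneous (d j))
    {m : ℕ} (hm : ∑ j, (S ℓ (d j * m) + S ℓ ((d j - 1) * m)) < Fintype.card ι * S ℓ m)
    (L : IntermediateField K Ω) [FiniteDimensional K L] (hG : Gd ℓ L) (x y : Pt Ω f)
    (hx : ∀ i, x.1 i ∈ L) (hy : ∀ i, y.1 i ∈ L) :
    ∃ t : ℕ, ¬ ℓ ∣ t ∧ t • (push L x - push L y) ∈ RatEq Ω f := by
  classical
  let F : κ → MvPolynomial ι L := fun j => map (algebraMap K L) (f j)
  have hF : ∀ j, (F j).IsHomogeneous (d j) := fun j => (hf j).map _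
  have hpt : ∀ (u : Pt Ω f) (hu : ∀ i, u.1 i ∈ L) (j : κ),
      aeval (fun i => (⟨u.1 i, hu i⟩ : L)) (F j) = 0 := by
    intro u hu j
    apply (algebraMap L Ω).injective
    rw [map_zero]
    refine Eq.trans ?_ (u.2.2 j)
    show algebraMap L Ω (aeval (fun i => (⟨u.1 i, hu i⟩ : L)) (map (algebraMap K L) (f j))) = _
    rw [aeval_map_algebraMap, ← aeval_algebraMap_apply]
    rfl
  obtain ⟨L', i1, i2, hfin, hdeg, z, hz, hzx, hzy⟩ := two_curves hG d F hF hm
    (fun i => (⟨x.1 i, hx i⟩ : L)) (fun i => (⟨y.1 i, hy i⟩ : L)) (hpt x hx) (hpt y hy)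
  obtain ⟨a, ha, ha2⟩ := exists_last z hz
  let σ : L' →ₐ[L] Ω := IsAlgClosed.lift
  let R : IntermediateField L Ω := σ.fieldRange
  let R' : IntermediateField K Ω := R.restrictScalars K
  let τ : L' →+* R' := (σ.rangeRestrict : L' →+* σ.range)
  have hτ : ∀ u : L', ((τ u : R') : Ω) = σ u := fun u => rfl
  have hfin1 : FiniteDimensional L R := by
    have e : L' ≃ₗ[L] R := (AlgEquiv.ofInjective σ σ.toRingHom.injective).toLinearEquiv
    exact LinearEquiv.finiteDimensional e
  have hrk : finrank L R = finrank L L' := by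
    have e : L' ≃ₗ[L] R := (AlgEquiv.ofInjective σ σ.toRingHom.injective).toLinearEquiv
    exact (LinearEquiv.finrank_eq e).symm
  have hfin2 : FiniteDimensional K R' := FiniteDimensional.trans K L R
  have hrk2 : finrank K R' = finrank K L * finrank L L' := by
    rw [← hrk]
    exact (finrank_mul_finrank K L R).symm
  -- the end point
  have hw : ∀ j, aeval (fun i => σ (z a i)) (f j) = 0 := by
    intro j
    have h1 := coeff_top (m := a.1 + 1) (hF j) (P := crv (fun i => algebraMap L L' ⟨x.1 i, hx i⟩) z)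
      (fun i => crv_natDegree _ z i a ha2)
    have h2 : aeval (crv (fun i => algebraMap L L' ⟨x.1 i, hx i⟩) z) (F j) = 0 := hzx j
    rw [h2, Polynomial.coeff_zero] at h1
    have h3 := congrArg σ h1
    rw [map_zero] at h3
    have h4 : (fun i => (crv (fun i => algebraMap L L' ⟨x.1 i, hx i⟩) z i).coeff (a.1 + 1))
        = z a := funext fun i => crv_coeff_succ _ z i a
    rw [h4, comp_aeval_apply] at h3
    show aeval (fun i => σ (z a i)) (f j) = 0
    have h5 : aeval (fun i => σ (z a i)) (map (algebraMap K L) (f j)) = 0 := h3.symm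
    rwa [aeval_map_algebraMap] at h5
  let w : Pt Ω f := ⟨fun i => σ (z a i), by
    intro h
    apply ha
    funext i
    apply σ.toRingHom.injective
    have := congr_fun h i
    show σ (z a i) = σ 0
    rw [map_zero]
    exact this, hw⟩
  -- the curves
  have hcur : ∀ (u : Pt Ω f) (hu : ∀ i, u.1 i ∈ L),
      (∀ j, aeval (fun i => Polynomial.C (algebraMap L L' (⟨u.1 i, hu i⟩ : L)) +
        ∑ b : Fin m, Polynomial.C (z b i) * Polynomial.X ^ (b.1 + 1)) (F j) = 0) →
      Elementary (push R' u - push R' w) := by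
    intro u hu hz1
    let c : ι → Polynomial L' := crv (fun i => algebraMap L L' ⟨u.1 i, hu i⟩) z
    refine ⟨R', fun i => (c i).map τ, a.1 + 1, u, w, hfin2, ?_, ?_, ?_, ?_, rfl⟩
    · intro j
      have h1 : aeval c (F j) = 0 := hz1 j
      have h2 := congrArg (Polynomial.mapRingHom τ) h1
      rw [map_zero] at h2
      rw [← h2]
      show _ = Polynomial.mapRingHom τ (aeval c (map (algebraMap K L) (f j)))
      rw [aeval_def, aeval_def, eval₂_map, ← coe_eval₂Hom, ← coe_eval₂Hom,
        ← RingHom.comp_apply, comp_eval₂Hom]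
      congr 2
      ext1 r
      rw [RingHom.comp_apply, RingHom.comp_apply, Polynomial.algebraMap_apply,
        Polynomial.algebraMap_apply, Polynomial.coe_mapRingHom, Polynomial.map_C]
      congr 1
      apply Subtype.ext
      rw [hτ]
      show algebraMap K Ω r = σ (algebraMap L L' (algebraMap K L r))
      rw [σ.commutes]
      rfl
    · intro i
      exact (Polynomial.natDegree_map_le).trans (crv_natDegree _ z i a ha2)
    · intro i
      rw [Polynomial.coeff_map, crv_coeff_zero, hτ, σ.commutes]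
      rfl
    · intro i
      rw [Polynomial.coeff_map, crv_coeff_succ, hτ]
  refine ⟨finrank L L', hdeg, ?_⟩
  have h1 : finrank L L' • (push L x - push L y)
      = (push R' x - push R' w) - (push R' y - push R' w) := by
    rw [sub_sub_sub_cancel_right, push_mul hx hrk2, push_mul hy hrk2, smul_sub]
  rw [h1]
  exact sub_mem (AddSubgroup.subset_closure (hcur x hx hzx))
    (AddSubgroup.subset_closure (hcur y hy hzy))

end Pool.Agent.Run7.h652.ZC
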