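import Mathlib
import Pool.Agent.Run7.h652.ZC.Two
import Pool.Agent.Run7.h652.ZC.Emb

/-!
Zero-cycles of degree zero.
-/

set_option autoImplicit false

namespace Pool.Agent.Run7.h652.ZC

open MvPolynomial IntermediateField Module

variable {K Ω ι κ : Type} [Field K] [Field Ω] [Algebra K Ω] [IsAlgClosed Ω]
  [Algebra.IsAlgebraic K Ω] [Fintype ι] [Fintype κ] {ℓ : ℕ} {f : κ → MvPolynomial ι K}
  {d : κ → ℕ}

/-- a point of degree prime to `ℓ` -/
theorem exists_base (hf : ∀ j, (f j).IsHomogeneous (d j)) (hd : ∀ j, 0 < d j)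
    (h0 : ∑ j, phi ℓ (d j) < Fintype.card ι) (hG : Gd ℓ K) :
    ∃ (L : IntermediateField K Ω) (x : Pt Ω f), FiniteDimensional K L ∧ ¬ ℓ ∣ finrank K L ∧
      ∀ i, x.1 i ∈ L := by
  obtain ⟨L', i1, i2, hfin, hdeg, z, hz, hzf⟩ := hG ι κ (fun _ => 1) d f (fun _ => one_pos) hd
    hf (by
      have h1 : ∀ i : ι, phi ℓ 1 = 1 := fun i => by simp [phi]
      rw [Finset.sum_congr rfl fun i _ => h1 i, Finset.sum_const, Finset.card_univ, smul_eq_mul,
        mul_one]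
      exact h0)
  let σ : L' →ₐ[K] Ω := IsAlgClosed.lift
  have e : L' ≃ₗ[K] σ.fieldRange :=
    (AlgEquiv.ofInjective σ σ.toRingHom.injective).toLinearEquiv
  refine ⟨σ.fieldRange, ⟨fun i => σ (z i), ?_, fun j => ?_⟩, LinearEquiv.finiteDimensional e, ?_,
    fun i => ⟨z i, rfl⟩⟩
  · intro h
    apply hz
    funext i
    apply σ.toRingHom.injective
    have := congr_fun h i
    show σ (z i) = σ 0
    rw [map_zero]
    exact this
  · rw [← comp_aeval_apply, hzf j, map_zero]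
  · rwa [← LinearEquiv.finrank_eq e]

theorem compare (hℓ : ℓ.Prime) (hf : ∀ j, (f j).IsHomogeneous (d j))
    (hG : ∀ L : IntermediateField K Ω, FiniteDimensional K L → Gd ℓ L) {m : ℕ}
    (hm : ∑ j, (S ℓ (d j * m) + S ℓ ((d j - 1) * m)) < Fintype.card ι * S ℓ m)
    (L₀ : IntermediateField K Ω) [FiniteDimensional K L₀] (h₀ : ¬ ℓ ∣ finrank K L₀) (x₀ : Pt Ω f)
    (hx₀ : ∀ i, x₀.1 i ∈ L₀) (L : IntermediateField K Ω) [FiniteDimensional K L] (x : Pt Ω f)
    (hx : ∀ i, x.1 i ∈ L) :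
    ∃ M : ℕ, ¬ ℓ ∣ M ∧ M • (finrank K L₀ • push L x - finrank K L • push L₀ x₀) ∈ RatEq Ω f := by
  obtain ⟨σ, F, t, hLF, hσF, hfin, hrk, ht⟩ := exists_comp hℓ L₀ L h₀
  let y : Pt Ω f := ⟨fun i => σ (x₀.1 i), by
    intro h
    apply x₀.2.1
    funext i
    apply σ.injective
    have := congr_fun h i
    show σ (x₀.1 i) = σ 0
    rw [map_zero]
    exact this, fun j => by
      have h1 := congrArg σ (x₀.2.2 j)
      rw [map_zero] at h1
      exact ((comp_aeval_apply (f := x₀.1) (σ : Ω →ₐ[K] Ω) (f j)).symm).trans h1⟩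
  have hy : ∀ i, y.1 i ∈ L₀.map (σ : Ω →ₐ[K] Ω) := fun i => ⟨x₀.1 i, hx₀ i, rfl⟩
  have hF := hG F hfin
  obtain ⟨M, hM, hM2⟩ := two_points (Ω := Ω) hf hm F hF x y (fun i => hLF (hx i))
    (fun i => hσF (hy i))
  obtain ⟨s, hs⟩ := finrank_dvd hσF
  have h1 : push F x = t • push L x := push_mul hx hrk
  have h2 : push F y = s • push L₀ x₀ := by
    rw [push_mul hy hs, push_conj σ L₀ (x := x₀) (y := y) fun i => rfl]
  rw [finrank_map] at hs
  have h3 : finrank K L * t = finrank K L₀ * s := by rw [← hrk, ← hs]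
  refine ⟨M * t, ?_, ?_⟩
  · intro h
    rcases (hℓ.dvd_mul).1 h with h | h
    · exact hM h
    · exact ht h
  · have h4 : (M * t) • (finrank K L₀ • push L x - finrank K L • push L₀ x₀)
        = finrank K L₀ • (M • (push F x - push F y)) := by
      rw [h1, h2, smul_sub, smul_sub, smul_sub, smul_smul, smul_smul, smul_smul, smul_smul,
        smul_smul, smul_smul]
      congr 2
      · ring
      · calc M * t * finrank K L = M * (finrank K L * t) := by ring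
          _ = finrank K L₀ * M * s := by rw [h3]; ring
    rw [h4]
    exact nsmul_mem hM2 _

theorem compare_all (hℓ : ℓ.Prime) (hf : ∀ j, (f j).IsHomogeneous (d j))
    (hG : ∀ L : IntermediateField K Ω, FiniteDimensional K L → Gd ℓ L) {m : ℕ}
    (hm : ∑ j, (S ℓ (d j * m) + S ℓ ((d j - 1) * m)) < Fintype.card ι * S ℓ m)
    (L₀ : IntermediateField K Ω) [FiniteDimensional K L₀] (h₀ : ¬ ℓ ∣ finrank K L₀) (x₀ : Pt Ω f)
    (hx₀ : ∀ i, x₀.1 i ∈ L₀) (z : Cyc Ω f) :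
    ∃ M : ℕ, ¬ ℓ ∣ M ∧ M • (finrank K L₀ • z - deg z • push L₀ x₀) ∈ RatEq Ω f := by
  induction z using Finsupp.induction_linear with
  | zero =>
    refine ⟨1, fun h => hℓ.one_lt.ne' (Nat.dvd_one.1 h), ?_⟩
    simp
  | add z w hz hw =>
    obtain ⟨M, hM, hM2⟩ := hz
    obtain ⟨N, hN, hN2⟩ := hw
    refine ⟨M * N, ?_, ?_⟩
    · intro h
      rcases (hℓ.dvd_mul).1 h with h | h
      · exact hM h
      · exact hN h
    · have h1 : (M * N) • (finrank K L₀ • (z + w) - deg (z + w) • push L₀ x₀)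
          = N • (M • (finrank K L₀ • z - deg z • push L₀ x₀))
            + M • (N • (finrank K L₀ • w - deg w • push L₀ x₀)) := by
        have h2 : finrank K L₀ • (z + w) - deg (z + w) • push L₀ x₀
            = (finrank K L₀ • z - deg z • push L₀ x₀)
              + (finrank K L₀ • w - deg w • push L₀ x₀) := by
          rw [map_add, add_smul, nsmul_add]
          abel
        rw [h2, nsmul_add, smul_smul, smul_smul, mul_comm N M]
      rw [h1]
      exact add_mem (nsmul_mem hM2 _) (nsmul_mem hN2 _)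
  | single P n =>
    obtain ⟨L, x, hfin, hx, hP⟩ := exists_push (fun j => ⟨d j, hf j⟩) P
    obtain ⟨M, hM, hM2⟩ := compare hℓ hf hG hm L₀ h₀ x₀ hx₀ L x hx
    refine ⟨M, hM, ?_⟩
    have h1 : Finsupp.single P n = n • push L x := by
      rw [← hP, Finsupp.smul_single, smul_eq_mul, mul_one]
    have h2 : M • (finrank K L₀ • Finsupp.single P n - deg (Finsupp.single P n) • push L₀ x₀)
        = n • (M • (finrank K L₀ • push L x - finrank K L • push L₀ x₀)) := by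
      rw [h1, map_zsmul, deg_push hx, smul_comm n M, smul_sub n, smul_comm n (finrank K L₀)]
      congr 2
      rw [smul_eq_mul, mul_smul, natCast_zsmul]
    rw [h2]
    exact zsmul_mem hM2 _

/-- zero-cycles of degree zero, at the prime `ℓ` -/
theorem degree_zero (hℓ : ℓ.Prime) (hf : ∀ j, (f j).IsHomogeneous (d j)) (hd : ∀ j, 0 < d j)
    (hG : ∀ L : IntermediateField K Ω, FiniteDimensional K L → Gd ℓ L) (hG0 : Gd ℓ K)
    (h0 : ∑ j, phi ℓ (d j) < Fintype.card ι) {m : ℕ}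
    (hm : ∑ j, (S ℓ (d j * m) + S ℓ ((d j - 1) * m)) < Fintype.card ι * S ℓ m)
    (z : Cyc Ω f) (hz : deg z = 0) : ∃ M : ℕ, ¬ ℓ ∣ M ∧ M • z ∈ RatEq Ω f := by
  obtain ⟨L₀, x₀, hfin, h₀, hx₀⟩ := exists_base (Ω := Ω) hf hd h0 hG0
  obtain ⟨M, hM, hM2⟩ := compare_all hℓ hf hG hm L₀ h₀ x₀ hx₀ z
  refine ⟨M * finrank K L₀, ?_, ?_⟩
  · intro h
    rcases (hℓ.dvd_mul).1 h with h | h
    · exact hM h
    · exact h₀ h
  · rw [hz, zero_smul, sub_zero, smul_smul] at hM2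
    exact hM2

theorem degree_prime (hf : ∀ j, (f j).IsHomogeneous (d j)) (hd : ∀ j, 0 < d j)
    (hG0 : Gd ℓ K) (h0 : ∑ j, phi ℓ (d j) < Fintype.card ι) :
    ∃ (z : Cyc Ω f) (n : ℕ), deg z = n ∧ ¬ ℓ ∣ n := by
  obtain ⟨L₀, x₀, hfin, h₀, hx₀⟩ := exists_base (Ω := Ω) hf hd h0 hG0
  exact ⟨push L₀ x₀, finrank K L₀, deg_push hx₀, h₀⟩

/-- a subgroup which contains a multiple prime to `ℓ` for all `ℓ` -/
theorem mem_of_primes {A : Type} [AddCommGroup A] (H : AddSubgroup A) (a : A)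
    (h : ∀ ℓ : ℕ, ℓ.Prime → ∃ M : ℕ, ¬ ℓ ∣ M ∧ M • a ∈ H) : a ∈ H := by
  let I : AddSubgroup ℤ := H.comap (zmultiplesHom A a)
  have hI : ∀ n : ℤ, n ∈ I ↔ n • a ∈ H := fun n => Iff.rfl
  obtain ⟨g, hg⟩ := Int.subgroup_cyclic I
  have h1 : g.natAbs = 1 := by
    by_contra h2
    obtain ⟨ℓ, hℓ, hl⟩ := Nat.exists_prime_and_dvd h2
    obtain ⟨M, hM, hM2⟩ := h ℓ hℓ
    have h3 : (M : ℤ) ∈ I := by
      rw [hI, natCast_zsmul]
      exact hM2
    rw [hg, ← AddSubgroup.zmultiples_eq_closure, Int.mem_zmultiples_iff] at h3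
    apply hM
    have h4 := Int.natAbs_dvd_natAbs.2 h3
    rw [Int.natAbs_natCast] at h4
    exact hl.trans h4
  have h2 : (1 : ℤ) ∈ I := by
    rw [hg, ← AddSubgroup.zmultiples_eq_closure, Int.mem_zmultiples_iff]
    exact Int.natAbs_dvd_natAbs.1 (by rw [h1]; exact one_dvd _)
  rw [hI, one_smul] at h2
  exact h2

end Pool.Agent.Run7.h652.ZC
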